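import Pool.Agent.X65.FT.Deg

/-! Graphs in which few vertices dominate almost all vertices of degree at least three. -/

set_option autoImplicit false
set_option linter.unusedSectionVars false

namespace Pool.Agent.X65.FT

open Finset Pool.Agent.TH676.Z Pool.Agent.Y335.FL Pool.Agent.Y358.IN

section graph

variable {V : Type} [Fintype V] [DecidableEq V] {G : SimpleGraph V}

/-- a set of at least 126 vertices such that every closed neighbourhood contains at most four of
them, and the neighbourhoods of its members at most three -/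
theorem exists_X (h12 : ∀ (w : V) (c : G.Walk w w), c.IsCycle → 12 ≤ c.length)
    (h3 : ∀ x y, G.Adj x y → ∃ a b c, G.Adj x a ∧ G.Adj x b ∧ G.Adj x c ∧ a ≠ b ∧ a ≠ c ∧ b ≠ c)
    {x y : V} (hxy : G.Adj x y) : ∃ X : Finset V, X.card = 126 ∧ (∀ v ∈ X, ∃ z, G.Adj v z) ∧
      (∀ z, ∀ Y ⊆ X, (∀ v ∈ Y, G.Adj z v) → Y.card ≤ 4) ∧
      ∀ z ∈ X, ∀ Y ⊆ X, (∀ v ∈ Y, G.Adj z v) → Y.card ≤ 3 := by
  obtain ⟨N⟩ := exists_nx h3
  have hsub : ∀ z, ∀ Y ⊆ X N x y, (∀ v ∈ Y, G.Adj z v) → Y ⊆ A N x y z :=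
    fun z Y h1 h2 v hv => (mem_A N).2 ⟨h1 hv, h2 v hv⟩
  have hin : ∀ z ∈ X N x y, ∀ Y ⊆ X N x y, (∀ v ∈ Y, G.Adj z v) → Y.card ≤ 3 :=
    fun z hz Y h1 h2 => (card_le_card (hsub z Y h1 h2)).trans (card_A_in N h12 hxy hz)
  refine ⟨X N x y, card_X N h12 hxy, ?_, ?_, hin⟩
  · intro v hv
    rcases (mem_X N).1 hv with ⟨l, hl, rfl⟩ | ⟨l, hl, rfl⟩
    · obtain ⟨P, _⟩ := wk N h12 l hxy.symm (by omega)
      exact Ord.nbr hxy P
    · obtain ⟨P, _⟩ := wk N h12 l hxy (by omega)
      exact Ord.nbr hxy.symm P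
  · intro z Y h1 h2
    by_cases hz : z ∈ X N x y
    · exact (hin z hz Y h1 h2).trans (by norm_num)
    · exact (card_le_card (hsub z Y h1 h2)).trans (card_A_out N h12 hxy hz)

end graph

section

variable {V E : Type} [Fintype V] [DecidableEq V] [Fintype E] [DecidableEq E]

open Classical in
/-- the vertices of degree at least three that are neither in `D` nor adjacent to a member of `D` -/
noncomputable def und (src dst : E → V) (D : Finset V) : Finset V :=
  univ.filter fun v => 3 ≤ dg src dst v ∧ v ∉ D ∧ ∀ d ∈ D, ¬ Adj src dst d v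

theorem mem_und {src dst : E → V} {D : Finset V} {v : V} : v ∈ und src dst D ↔
    3 ≤ dg src dst v ∧ v ∉ D ∧ ∀ d ∈ D, ¬ Adj src dst d v := by
  classical
  unfold und
  rw [mem_filter]
  exact ⟨fun h => h.2, fun h => ⟨mem_univ _, h⟩⟩

/-- the class -/
def ClD (src dst : E → V) : Prop := ∃ D : Finset V, 4 * D.card + (und src dst D).card ≤ 125

theorem ccD : CC (V := V) (E := E) ClD := by
  classical
  intro src dst e h hne
  obtain ⟨D, hD⟩ := h
  set u := src e with hu
  set v := dst e with hv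
  have hcard : (D.image (ctr u v)).card ≤ D.card := card_image_le
  have key : ∀ x y : V, ctr u v y = x → x ∉ D.image (ctr u v) →
      (∀ d ∈ D.image (ctr u v), ¬ Adj (ctr u v ∘ src) (ctr u v ∘ dst) d x) →
      y ∉ D ∧ ∀ d ∈ D, ¬ Adj src dst d y := by
    intro x y hyx hx1 hx2
    refine ⟨fun hy => hx1 (mem_image.2 ⟨y, hy, hyx⟩), fun d hd hadj => ?_⟩
    by_cases hne' : ctr u v d = ctr u v y
    · exact hx1 (mem_image.2 ⟨d, hd, hne'.trans hyx⟩)
    · have h5 := adj_ctr (u := u) (v := v) hadj hne'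
      rw [hyx] at h5
      exact hx2 _ (mem_image_of_mem _ hd) h5
  have hvU : v ∉ und (ctr u v ∘ src) (ctr u v ∘ dst) (D.image (ctr u v)) := by
    intro h
    have h1 := (mem_und.1 h).1
    rw [Ord.dg_ctr_v src dst hne] at h1
    omega
  have hoth : ∀ x, x ≠ u → x ∈ und (ctr u v ∘ src) (ctr u v ∘ dst) (D.image (ctr u v)) →
      x ∈ und src dst D := by
    intro x hxu hx
    have hxv : x ≠ v := fun h => hvU (h ▸ hx)
    obtain ⟨h1, h2, h3⟩ := mem_und.1 hx
    obtain ⟨h4, h5⟩ := key x x (ctr_of_ne hxv) h2 h3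
    exact mem_und.2 ⟨h1.trans (Ord.dg_ctr_other src dst hxu), h4, h5⟩
  refine ⟨D.image (ctr u v), ?_⟩
  by_cases huU : u ∈ und (ctr u v ∘ src) (ctr u v ∘ dst) (D.image (ctr u v))
  · obtain ⟨h1, h2, h3⟩ := mem_und.1 huU
    have h4 : dg (ctr u v ∘ src) (ctr u v ∘ dst) u + 2 ≤ dg src dst u + dg src dst v :=
      Ord.dg_ctr_u src dst e hne
    by_cases h5 : 3 ≤ dg src dst u
    · have h6 := key u u (ctr_u _ _ hne) h2 h3
      have h7 : und (ctr u v ∘ src) (ctr u v ∘ dst) (D.image (ctr u v)) ⊆ und src dst D := by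
        intro x hx
        by_cases hxu : x = u
        · rw [hxu]
          exact mem_und.2 ⟨h5, h6.1, h6.2⟩
        · exact hoth x hxu hx
      have h8 := card_le_card h7
      omega
    · have h6 := key u v (ctr_v _ _) h2 h3
      have h9 : v ∈ und src dst D := mem_und.2 ⟨by omega, h6.1, h6.2⟩
      have h7 : und (ctr u v ∘ src) (ctr u v ∘ dst) (D.image (ctr u v)) ⊆
          insert u ((und src dst D).erase v) := by
        intro x hx
        by_cases hxu : x = u
        · rw [hxu]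
          exact mem_insert_self _ _
        · refine mem_insert_of_mem (mem_erase.2 ⟨fun h => hvU (h ▸ hx), hoth x hxu hx⟩)
      have h8 := (card_le_card h7).trans (card_insert_le _ _)
      rw [card_erase_of_mem h9] at h8
      have h10 : 0 < (und src dst D).card := card_pos.2 ⟨_, h9⟩
      omega
  · have h7 : und (ctr u v ∘ src) (ctr u v ∘ dst) (D.image (ctr u v)) ⊆ und src dst D := by
      intro x hx
      exact hoth x (fun h => huU (h ▸ hx)) hx
    have h8 := card_le_card h7
    omega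

/-- **Main step.** -/
theorem flow_of_ClD (hc : St_contract) (src dst : E → V) (hcl : ClD src dst)
    (hbr : Br src dst ∅ ∅) : FlowOn src dst ∅ ∅ := by
  classical
  by_contra hn
  obtain ⟨s, d, ⟨D, hD⟩, hM⟩ := exists_minC ccD src dst hcl hbr hn
  have h3 := threeC hc hM
  have hgi := girthC hc hM
  by_cases hl : ∀ e, s e = d e
  · exact hM.nf (flow_of_loops hl)
  push Not at hl
  obtain ⟨e, he⟩ := hl
  let G : SimpleGraph V :=
    { Adj := Adj s d
      symm := ⟨fun a b h => GiAux.adj_symm h⟩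
      loopless := ⟨fun a h => h.1 rfl⟩ }
  have hG : ∀ a b, G.Adj a b ↔ Adj s d a b := fun a b => Iff.rfl
  have h12 : ∀ (w : V) (c : G.Walk w w), c.IsCycle → 12 ≤ c.length :=
    fun w c hc => Ord.cycle_len hgi G hG c hc
  have hxy : G.Adj (s e) (d e) := ⟨he, e, Or.inl ⟨rfl, rfl⟩⟩
  obtain ⟨X, hX, hXn, hX4, hX3⟩ := exists_X h12 (fun x y h => h3 x y h) hxy
  have hsub : X ⊆ (D.biUnion fun z => X.filter fun v => v = z ∨ G.Adj z v) ∪ und s d D := by
    intro v hv
    by_cases h1 : ∃ z ∈ D, v = z ∨ G.Adj z v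
    · obtain ⟨z, hz, h2⟩ := h1
      exact mem_union_left _ (mem_biUnion.2 ⟨z, hz, mem_filter.2 ⟨hv, h2⟩⟩)
    · push Not at h1
      obtain ⟨z, hz⟩ := hXn v hv
      refine mem_union_right _ (mem_und.2 ⟨Ord.three_dg h3 hz, fun h => (h1 v h).1 rfl, ?_⟩)
      intro z hz
      exact (h1 z hz).2
  have h4 : ∀ z ∈ D, (X.filter fun v => v = z ∨ G.Adj z v).card ≤ 4 := by
    intro z _
    by_cases hz : z ∈ X
    · have h5 : (X.filter fun v => v = z ∨ G.Adj z v) ⊆ insert z (X.filter fun v => G.Adj z v) := by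
        intro v hv
        obtain ⟨h6, h7⟩ := mem_filter.1 hv
        rcases h7 with rfl | h7
        · exact mem_insert_self _ _
        · exact mem_insert_of_mem (mem_filter.2 ⟨h6, h7⟩)
      have h8 := hX3 z hz (X.filter fun v => G.Adj z v) (filter_subset _ _)
        (fun v hv => (mem_filter.1 hv).2)
      have h9 := (card_le_card h5).trans (card_insert_le _ _)
      omega
    · refine hX4 z _ (filter_subset _ _) fun v hv => ?_
      obtain ⟨h6, h7⟩ := mem_filter.1 hv
      rcases h7 with rfl | h7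
      · exact absurd h6 hz
      · exact h7
  have h5 := (card_le_card hsub).trans (card_union_le _ _)
  have h6 : (D.biUnion fun z => X.filter fun v => v = z ∨ G.Adj z v).card ≤ D.card * 4 :=
    card_biUnion_le_card_mul _ _ _ h4
  omega

end

end Pool.Agent.X65.FT
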