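import Pool.Agent.Y358.IN.Ind2

/-! Graphs in which every induced circuit has at most 19 edges. -/

set_option autoImplicit false
set_option linter.unusedSectionVars false

namespace Pool.Agent.X65.FT

open Finset Pool.Agent.TH676.Z Pool.Agent.Y335.FL Pool.Agent.Y358.IN

section

variable {V E : Type} [Fintype V] [DecidableEq V] [Fintype E] [DecidableEq E]

/-- `f 0, ..., f (n - 1)` is an induced circuit -/
structure IsHole (src dst : E → V) (n : ℕ) (f : ℕ → V) : Prop where
  three : 3 ≤ n
  inj : ∀ i j, i < j → j < n → f i ≠ f j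
  adj : ∀ i j, i < j → j < n → (Adj src dst (f i) (f j) ↔ (j = i + 1 ∨ (i = 0 ∧ j + 1 = n)))

/-- `f 0, ..., f (n - 1)` is an induced path -/
structure IsIP (src dst : E → V) (n : ℕ) (f : ℕ → V) : Prop where
  inj : ∀ i j, i < j → j < n → f i ≠ f j
  adj : ∀ i j, i < j → j < n → (Adj src dst (f i) (f j) ↔ j = i + 1)

/-- the class -/
def ClC (src dst : E → V) : Prop := ∀ n f, IsHole src dst n f → n ≤ 19

theorem adj_comm' {src dst : E → V} {x y : V} : Adj src dst x y ↔ Adj src dst y x :=
  ⟨fun h => GiAux.adj_symm h, fun h => GiAux.adj_symm h⟩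

theorem rot {src dst : E → V} {n : ℕ} {f : ℕ → V} (h : IsHole src dst n f) :
    IsHole src dst n (fun i => if i + 1 < n then f (i + 1) else f 0) := by
  have h3 := h.three
  refine ⟨h3, fun i j hij hj => ?_, fun i j hij hj => ?_⟩
  · by_cases h1 : j + 1 < n
    · simp only [if_pos h1, if_pos (show i + 1 < n by omega)]
      exact h.inj _ _ (by omega) h1
    · simp only [if_neg h1, if_pos (show i + 1 < n by omega)]
      exact (h.inj _ _ (by omega) (by omega)).symm
  · by_cases h1 : j + 1 < n
    · simp only [if_pos h1, if_pos (show i + 1 < n by omega)]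
      rw [h.adj _ _ (by omega) h1]
      omega
    · simp only [if_neg h1, if_pos (show i + 1 < n by omega)]
      rw [adj_comm', h.adj _ _ (by omega) (by omega)]
      omega

theorem to_zero {src dst : E → V} {n : ℕ} : ∀ (p : ℕ) {f : ℕ → V}, IsHole src dst n f →
    p < n → ∃ g, IsHole src dst n g ∧ g 0 = f p
  | 0, f, h, _ => ⟨f, h, rfl⟩
  | p + 1, f, h, hp => by
    obtain ⟨g, hg, hg0⟩ := to_zero p (rot h) (by omega)
    refine ⟨g, hg, ?_⟩
    rw [hg0]
    simp only [if_pos hp]

theorem ctr_ne_v {u v : V} (huv : u ≠ v) (x : V) : ctr u v x ≠ v := by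
  unfold ctr
  split_ifs with h
  · exact huv
  · exact h

/-- adjacency in the contraction -/
theorem adj_ctr_iff {src dst : E → V} {u v a b : V} : Adj (ctr u v ∘ src) (ctr u v ∘ dst) a b ↔
    a ≠ b ∧ ∃ x y, ctr u v x = a ∧ ctr u v y = b ∧ Adj src dst x y := by
  constructor
  · rintro ⟨hne, e, he⟩
    refine ⟨hne, ?_⟩
    rcases he with ⟨h1, h2⟩ | ⟨h1, h2⟩
    · refine ⟨src e, dst e, h1, h2, fun h => hne ?_, e, Or.inl ⟨rfl, rfl⟩⟩
      rw [← h1, ← h2, Function.comp, Function.comp, h]
    · refine ⟨dst e, src e, h2, h1, fun h => hne ?_, e, Or.inr ⟨rfl, rfl⟩⟩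
      rw [← h1, ← h2, Function.comp, Function.comp, h]
  · rintro ⟨hne, x, y, hx, hy, hadj⟩
    have := adj_ctr (u := u) (v := v) hadj (by rw [hx, hy]; exact hne)
    rwa [hx, hy] at this

theorem eq_of_ctr {u v x a : V} (h : ctr u v x = a) (ha : a ≠ u) : x = a := by
  unfold ctr at h
  split_ifs at h with h1
  · exact absurd h.symm ha
  · exact h

theorem adj_off {src dst : E → V} {u v a b : V} (hau : a ≠ u) (hbu : b ≠ u) (hav : a ≠ v)
    (hbv : b ≠ v) :
    Adj (ctr u v ∘ src) (ctr u v ∘ dst) a b ↔ Adj src dst a b := by
  rw [adj_ctr_iff]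
  constructor
  · rintro ⟨_, x, y, hx, hy, hadj⟩
    rwa [eq_of_ctr hx hau, eq_of_ctr hy hbu] at hadj
  · intro h
    exact ⟨h.1, a, b, ctr_of_ne hav, ctr_of_ne hbv, h⟩

theorem adj_on {src dst : E → V} {u v b : V} (huv : u ≠ v) (hbu : b ≠ u) (hbv : b ≠ v) :
    Adj (ctr u v ∘ src) (ctr u v ∘ dst) u b ↔ Adj src dst u b ∨ Adj src dst v b := by
  rw [adj_ctr_iff]
  constructor
  · rintro ⟨_, x, y, hx, hy, hadj⟩
    rw [eq_of_ctr hy hbu] at hadj
    unfold ctr at hx
    split_ifs at hx with h1
    · rw [h1] at hadj
      exact Or.inr hadj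
    · rw [hx] at hadj
      exact Or.inl hadj
  · rintro (h | h)
    · exact ⟨hbu.symm, u, b, ctr_u _ _ huv, ctr_of_ne hbv, h⟩
    · exact ⟨hbu.symm, v, b, ctr_v _ _, ctr_of_ne hbv, h⟩

theorem not_adj_v {src dst : E → V} {u v b : V} (huv : u ≠ v) :
    ¬ Adj (ctr u v ∘ src) (ctr u v ∘ dst) v b := by
  rw [adj_ctr_iff]
  rintro ⟨_, x, y, hx, hy, hadj⟩
  exact ctr_ne_v huv x hx

theorem hole_nbr {src dst : E → V} {n : ℕ} {f : ℕ → V} (h : IsHole src dst n f) {i : ℕ}
    (hi : i < n) : ∃ z, Adj src dst (f i) z := by
  have h3 := h.three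
  by_cases h1 : i + 1 < n
  · exact ⟨f (i + 1), (h.adj i (i + 1) (by omega) h1).2 (Or.inl rfl)⟩
  · exact ⟨f 0, GiAux.adj_symm ((h.adj 0 i (by omega) hi).2 (Or.inr ⟨rfl, by omega⟩))⟩

theorem lift_hole {src dst : E → V} {u v : V} (huv : Adj src dst u v) {n : ℕ} {f : ℕ → V}
    (h : IsHole (ctr u v ∘ src) (ctr u v ∘ dst) n f) :
    ∃ m g, IsHole src dst m g ∧ n ≤ m := by
  have h3 := h.three
  have hne : u ≠ v := huv.1
  have hfv : ∀ i, i < n → f i ≠ v := by
    intro i hi hv
    obtain ⟨z, hz⟩ := hole_nbr h hi
    rw [hv] at hz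
    exact not_adj_v hne hz
  by_cases hu : ∃ p, p < n ∧ f p = u
  · obtain ⟨p, hp, hpu⟩ := hu
    obtain ⟨g, hg, hg0⟩ := to_zero p h hp
    rw [hpu] at hg0
    have hgv : ∀ i, i < n → g i ≠ v := by
      intro i hi hv
      obtain ⟨z, hz⟩ := hole_nbr hg hi
      rw [hv] at hz
      exact not_adj_v hne hz
    have hgu : ∀ i, 0 < i → i < n → g i ≠ u := by
      intro i hi hin hh
      exact hg.inj 0 i hi hin (by rw [hg0, hh])
    have hoff : ∀ i j, 0 < i → i < j → j < n →
        (Adj src dst (g i) (g j) ↔ (j = i + 1 ∨ (i = 0 ∧ j + 1 = n))) := by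
      intro i j hi hij hj
      rw [← hg.adj i j hij hj, adj_off (hgu i hi (by omega)) (hgu j (by omega) hj)
        (hgv i (by omega)) (hgv j hj)]
    have hon : ∀ j, 0 < j → j < n →
        ((Adj src dst u (g j) ∨ Adj src dst v (g j)) ↔ (j = 1 ∨ j + 1 = n)) := by
      intro j hj hjn
      have h0 := hg.adj 0 j hj hjn
      rw [hg0] at h0
      rw [← adj_on hne (hgu j hj hjn) (hgv j hjn), h0]
      omega
    -- one of the two vertices is enough
    have one : ∀ w, (∀ z, Adj src dst w z → Adj src dst u z ∨ Adj src dst v z) → w = u ∨ w = v →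
        Adj src dst w (g 1) → Adj src dst w (g (n - 1)) → ∃ m g, IsHole src dst m g ∧ n ≤ m := by
      intro w hw hwe h1 h2
      have hwg : ∀ i, 0 < i → i < n → w ≠ g i := by
        intro i hi hin
        rcases hwe with rfl | rfl
        · exact (hgu i hi hin).symm
        · exact (hgv i hin).symm
      refine ⟨n, fun i => if i = 0 then w else g i, ⟨h3, fun i j hij hj => ?_,
        fun i j hij hj => ?_⟩, le_rfl⟩
      · simp only [if_neg (show j ≠ 0 by omega)]
        by_cases hi : i = 0
        · simp only [if_pos hi]
          exact hwg j (by omega) hj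
        · simp only [if_neg hi]
          exact hg.inj i j hij hj
      · simp only [if_neg (show j ≠ 0 by omega)]
        by_cases hi : i = 0
        · simp only [if_pos hi]
          constructor
          · intro hh
            have := (hon j (by omega) hj).1 (hw _ hh)
            omega
          · intro hh
            rcases hh with hh | hh
            · have : j = 1 := by omega
              rw [this]; exact h1
            · have : j = n - 1 := by omega
              rw [this]; exact h2
        · simp only [if_neg hi]
          exact hoff i j (by omega) hij hj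
    -- both vertices
    have two : ∀ w w', (∀ z, Adj src dst w z → Adj src dst u z ∨ Adj src dst v z) →
        (∀ z, Adj src dst w' z → Adj src dst u z ∨ Adj src dst v z) → (w = u ∨ w = v) →
        (w' = u ∨ w' = v) → Adj src dst w w' →
        Adj src dst w (g 1) → Adj src dst w' (g (n - 1)) → ¬ Adj src dst w (g (n - 1)) →
        ¬ Adj src dst w' (g 1) → ∃ m g, IsHole src dst m g ∧ n ≤ m := by
      intro w w' hw hw' hwe hwe' hww h1 h2 h4 h5
      have hwg : ∀ i, 0 < i → i < n → w ≠ g i := by
        intro i hi hin
        rcases hwe with rfl | rfl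
        · exact (hgu i hi hin).symm
        · exact (hgv i hin).symm
      have hwg' : ∀ i, 0 < i → i < n → w' ≠ g i := by
        intro i hi hin
        rcases hwe' with rfl | rfl
        · exact (hgu i hi hin).symm
        · exact (hgv i hin).symm
      refine ⟨n + 1, fun i => if i = 0 then w else if i = n then w' else g i,
        ⟨by omega, fun i j hij hj => ?_, fun i j hij hj => ?_⟩, by omega⟩
      · simp only [if_neg (show j ≠ 0 by omega), if_neg (show i ≠ n by omega)]
        by_cases hi : i = 0
        · simp only [if_pos hi]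
          by_cases hjn : j = n
          · simp only [if_pos hjn]
            exact hww.1
          · simp only [if_neg hjn]
            exact hwg j (by omega) (by omega)
        · simp only [if_neg hi]
          by_cases hjn : j = n
          · simp only [if_pos hjn]
            exact (hwg' i (by omega) (by omega)).symm
          · simp only [if_neg hjn]
            exact hg.inj i j hij (by omega)
      · simp only [if_neg (show j ≠ 0 by omega), if_neg (show i ≠ n by omega)]
        by_cases hi : i = 0
        · simp only [if_pos hi]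
          by_cases hjn : j = n
          · simp only [if_pos hjn]
            exact iff_of_true hww (Or.inr ⟨hi, by omega⟩)
          · simp only [if_neg hjn]
            constructor
            · intro hh
              have h6 := (hon j (by omega) (by omega)).1 (hw _ hh)
              rcases h6 with h6 | h6
              · left; omega
              · exfalso
                apply h4
                have : n - 1 = j := by omega
                rw [this]; exact hh
            · intro hh
              have : j = 1 := by omega
              rw [this]; exact h1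
        · simp only [if_neg hi]
          by_cases hjn : j = n
          · simp only [if_pos hjn]
            rw [adj_comm']
            constructor
            · intro hh
              have h6 := (hon i (by omega) (by omega)).1 (hw' _ hh)
              rcases h6 with h6 | h6
              · exfalso
                apply h5
                rw [← h6]; exact hh
              · left; omega
            · intro hh
              have : i = n - 1 := by omega
              rw [this]; exact h2
          · simp only [if_neg hjn]
            rw [hoff i j (by omega) hij (by omega)]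
            omega
    have hu1 : ∀ z, Adj src dst u z → Adj src dst u z ∨ Adj src dst v z := fun z h => Or.inl h
    have hv1 : ∀ z, Adj src dst v z → Adj src dst u z ∨ Adj src dst v z := fun z h => Or.inr h
    have e1 := (hon 1 (by omega) (by omega)).2 (Or.inl rfl)
    have e2 := (hon (n - 1) (by omega) (by omega)).2 (Or.inr (by omega))
    by_cases c1 : Adj src dst u (g 1) ∧ Adj src dst u (g (n - 1))
    · exact one u hu1 (Or.inl rfl) c1.1 c1.2
    by_cases c2 : Adj src dst v (g 1) ∧ Adj src dst v (g (n - 1))
    · exact one v hv1 (Or.inr rfl) c2.1 c2.2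
    by_cases c3 : Adj src dst u (g 1)
    · have c4 : ¬ Adj src dst u (g (n - 1)) := fun h => c1 ⟨c3, h⟩
      have c5 : Adj src dst v (g (n - 1)) := e2.resolve_left c4
      have c6 : ¬ Adj src dst v (g 1) := fun h => c2 ⟨h, c5⟩
      exact two u v hu1 hv1 (Or.inl rfl) (Or.inr rfl) huv c3 c5 c4 c6
    · have c4 : Adj src dst v (g 1) := e1.resolve_left c3
      have c5 : ¬ Adj src dst v (g (n - 1)) := fun h => c2 ⟨c4, h⟩
      have c6 : Adj src dst u (g (n - 1)) := e2.resolve_right c5
      exact two v u hv1 hu1 (Or.inr rfl) (Or.inl rfl) (GiAux.adj_symm huv) c4 c6 c5 c3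
  · push Not at hu
    refine ⟨n, f, ⟨h3, h.inj, fun i j hij hj => ?_⟩, le_rfl⟩
    rw [← h.adj i j hij hj, adj_off (hu i (by omega)) (hu j hj) (hfv i (by omega)) (hfv j hj)]

theorem ccC : CC (V := V) (E := E) ClC := by
  intro src dst e h hne n f hf
  obtain ⟨m, g, hg, hm⟩ := lift_hole (u := src e) (v := dst e) ⟨hne, e, Or.inl ⟨rfl, rfl⟩⟩ hf
  exact hm.trans (h m g hg)

/-- a closed sequence of distinct adjacent vertices has length at least twelve -/
theorem closed_len {src dst : E → V} (hg : Girth (Adj src dst) 12) {n : ℕ} (h3 : 3 ≤ n)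
    (g : ℕ → V) (hinj : ∀ i j, i < j → j < n → g i ≠ g j)
    (hadj : ∀ i, i + 1 < n → Adj src dst (g i) (g (i + 1)))
    (hlast : Adj src dst (g (n - 1)) (g 0)) : 12 ≤ n := by
  by_contra hlt
  push Not at hlt
  obtain ⟨k, rfl⟩ : ∃ k, n = k + 3 := ⟨n - 3, by omega⟩
  refine hg k (by omega) (fun i => g i.val) ?_ ?_
  · intro i j hij
    rcases lt_trichotomy i.val j.val with h | h | h
    · exact absurd hij (hinj _ _ h j.2)
    · exact Fin.ext h
    · exact absurd hij.symm (hinj _ _ h i.2)
  · intro i
    rw [Fin.val_add_one]
    split_ifs with h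
    · rw [h]
      exact hlast
    · refine hadj _ ?_
      have h1 : i.val ≠ k + 2 := fun h1 => h (Fin.ext h1)
      have h2 := i.2
      omega

theorem hole_len {src dst : E → V} (hg : Girth (Adj src dst) 12) {n : ℕ} {f : ℕ → V}
    (h : IsHole src dst n f) : 12 ≤ n := by
  have h3 := h.three
  refine closed_len hg h3 f h.inj (fun i hi => (h.adj i (i + 1) (by omega) hi).2 (Or.inl rfl)) ?_
  exact GiAux.adj_symm ((h.adj 0 (n - 1) (by omega) (by omega)).2 (Or.inr ⟨rfl, by omega⟩))

/-- the last vertex of an induced path with another neighbour: extension or a hole -/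
theorem ext_or {src dst : E → V} {k : ℕ} {f : ℕ → V} (h : IsIP src dst k f) (hk : 2 ≤ k) {w : V}
    (hw : Adj src dst (f (k - 1)) w) (hw2 : w ≠ f (k - 2)) :
    (∀ i, i < k → f i ≠ w) ∧ ((∃ g, IsIP src dst (k + 1) g) ∨
      ∃ a g, a < k - 1 ∧ Adj src dst w (f a) ∧ IsHole src dst (k - a + 1) g) := by
  classical
  have hwf : ∀ i, i < k → f i ≠ w := by
    intro i hi hh
    by_cases h1 : i = k - 1
    · rw [← h1, hh] at hw
      exact hw.1 rfl
    · rw [← hh, adj_comm', h.adj i (k - 1) (by omega) (by omega)] at hw
      apply hw2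
      rw [← hh]
      congr 1
      omega
  refine ⟨hwf, ?_⟩
  by_cases hex : ∃ a, a < k - 1 ∧ Adj src dst w (f a)
  · right
    obtain ⟨a, ⟨ha1, ha2⟩, hmax⟩ : ∃ a, (a < k - 1 ∧ Adj src dst w (f a)) ∧
        ∀ b, b < k - 1 → Adj src dst w (f b) → b ≤ a := by
      have hne : ((range (k - 1)).filter fun a => Adj src dst w (f a)).Nonempty := by
        obtain ⟨a, h1, h2⟩ := hex
        exact ⟨a, mem_filter.2 ⟨mem_range.2 h1, h2⟩⟩
      refine ⟨((range (k - 1)).filter fun a => Adj src dst w (f a)).max' hne, ?_,
        fun b hb1 hb2 => le_max' _ b (mem_filter.2 ⟨mem_range.2 hb1, hb2⟩)⟩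
      · have := mem_filter.1 (max'_mem _ hne)
        exact ⟨mem_range.1 this.1, this.2⟩
    refine ⟨a, fun i => if i < k - a then f (a + i) else w, ha1, ha2, by omega,
      fun i j hij hj => ?_, fun i j hij hj => ?_⟩
    · simp only [if_pos (show i < k - a by omega)]
      by_cases h1 : j < k - a
      · simp only [if_pos h1]
        exact h.inj _ _ (by omega) (by omega)
      · simp only [if_neg h1]
        exact hwf _ (by omega)
    · simp only [if_pos (show i < k - a by omega)]
      by_cases h1 : j < k - a
      · simp only [if_pos h1]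
        rw [h.adj _ _ (by omega) (by omega)]
        omega
      · simp only [if_neg h1]
        have hj' : j = k - a := by omega
        subst hj'
        constructor
        · intro hh
          by_cases h2 : a + i < k - 1
          · have := hmax _ h2 (GiAux.adj_symm hh)
            right; omega
          · left; omega
        · rintro (hh | hh)
          · have : a + i = k - 1 := by omega
            rw [this]; exact hw
          · rw [hh.1, Nat.add_zero]
            exact GiAux.adj_symm ha2
  · left
    push Not at hex
    refine ⟨fun i => if i < k then f i else w, fun i j hij hj => ?_, fun i j hij hj => ?_⟩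
    · simp only [if_pos (show i < k by omega)]
      by_cases h1 : j < k
      · simp only [if_pos h1]
        exact h.inj _ _ hij h1
      · simp only [if_neg h1]
        exact hwf _ (by omega)
    · simp only [if_pos (show i < k by omega)]
      by_cases h1 : j < k
      · simp only [if_pos h1]
        exact h.adj _ _ hij h1
      · simp only [if_neg h1]
        constructor
        · intro hh
          by_contra h2
          exact hex i (by omega) (GiAux.adj_symm hh)
        · intro hh
          have : i = k - 1 := by omega
          rw [this]; exact hw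

/-- an induced path can be extended -/
theorem extend {src dst : E → V} (hg : Girth (Adj src dst) 12) (h3 : Three (Adj src dst))
    (hh : ∀ n f, IsHole src dst n f → n ≤ 19) {k : ℕ} {f : ℕ → V} (h : IsIP src dst k f)
    (hk : 2 ≤ k) : ∃ g, IsIP src dst (k + 1) g := by
  by_contra hno
  have hadj : Adj src dst (f (k - 1)) (f (k - 2)) := by
    rw [adj_comm', h.adj _ _ (by omega) (by omega)]
    omega
  obtain ⟨a, b, c, ha, hb, hc, hab, hac, hbc⟩ := h3 _ _ hadj
  obtain ⟨w1, w2, hw1, hw2, hww, hn1, hn2⟩ : ∃ w1 w2, Adj src dst (f (k - 1)) w1 ∧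
      Adj src dst (f (k - 1)) w2 ∧ w1 ≠ w2 ∧ w1 ≠ f (k - 2) ∧ w2 ≠ f (k - 2) := by
    by_cases h1 : a = f (k - 2)
    · exact ⟨b, c, hb, hc, hbc, fun h => hab (h1.trans h.symm), fun h => hac (h1.trans h.symm)⟩
    · by_cases h2 : b = f (k - 2)
      · exact ⟨a, c, ha, hc, hac, h1, fun h => hbc (h2.trans h.symm)⟩
      · exact ⟨a, b, ha, hb, hab, h1, h2⟩
  obtain ⟨hf1, h4 | ⟨a1, g1, ha1, hA1, hg1⟩⟩ := ext_or h hk hw1 hn1
  · exact hno h4
  obtain ⟨hf2, h4 | ⟨a2, g2, ha2, hA2, hg2⟩⟩ := ext_or h hk hw2 hn2
  · exact hno h4
  have i1 := hh _ _ hg1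
  have i2 := hh _ _ hg2
  have j1 := hole_len hg hg1
  have j2 := hole_len hg hg2
  -- the short circuit
  have key : ∀ w w' : V, w ≠ w' → Adj src dst (f (k - 1)) w → Adj src dst (f (k - 1)) w' →
      (∀ i, i < k → f i ≠ w) → (∀ i, i < k → f i ≠ w') → ∀ p q, p ≤ q → q < k - 1 →
      Adj src dst w (f p) → Adj src dst w' (f q) → 12 ≤ q - p + 4 := by
    intro w w' hww' hw hw' hfw hfw' p q hpq hq hp1 hq1
    refine closed_len hg (by omega) (fun i => if i = 0 then f (k - 1) else if i = 1 then w
      else if i < q - p + 3 then f (p + (i - 2)) else w') ?_ ?_ ?_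
    · intro i j hij hj
      simp only [if_neg (show j ≠ 0 by omega)]
      by_cases c0 : i = 0
      · simp only [if_pos c0]
        by_cases c1 : j = 1
        · simp only [if_pos c1]; exact hfw _ (by omega)
        · simp only [if_neg c1]
          by_cases c2 : j < q - p + 3
          · simp only [if_pos c2]
            exact (h.inj _ _ (by omega) (by omega)).symm
          · simp only [if_neg c2]
            exact hfw' _ (by omega)
      · simp only [if_neg c0, if_neg (show j ≠ 1 by omega)]
        by_cases c1 : i = 1
        · simp only [if_pos c1]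
          by_cases c2 : j < q - p + 3
          · simp only [if_pos c2]
            exact (hfw _ (by omega)).symm
          · simp only [if_neg c2]
            exact hww'
        · simp only [if_neg c1, if_pos (show i < q - p + 3 by omega)]
          by_cases c2 : j < q - p + 3
          · simp only [if_pos c2]
            exact h.inj _ _ (by omega) (by omega)
          · simp only [if_neg c2]
            exact hfw' _ (by omega)
    · intro i hi
      simp only [if_neg (show i + 1 ≠ 0 by omega)]
      by_cases c0 : i = 0
      · simp only [if_pos c0, if_pos (show i + 1 = 1 by omega)]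
        exact hw
      · simp only [if_neg c0, if_neg (show i + 1 ≠ 1 by omega)]
        by_cases c1 : i = 1
        · simp only [if_pos c1, if_pos (show i + 1 < q - p + 3 by omega)]
          have : p + (i + 1 - 2) = p := by omega
          rw [this]
          exact hp1
        · simp only [if_neg c1, if_pos (show i < q - p + 3 by omega)]
          by_cases c2 : i + 1 < q - p + 3
          · simp only [if_pos c2]
            rw [h.adj _ _ (by omega) (by omega)]
            omega
          · simp only [if_neg c2]
            have : p + (i - 2) = q := by omega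
            rw [this]
            exact GiAux.adj_symm hq1
    · simp only [if_neg (show q - p + 4 - 1 ≠ 0 by omega), if_neg (show q - p + 4 - 1 ≠ 1 by omega),
        if_neg (show ¬ q - p + 4 - 1 < q - p + 3 by omega), if_pos trivial]
      exact GiAux.adj_symm hw'
  rcases le_total a1 a2 with h5 | h5
  · have := key w1 w2 hww hw1 hw2 hf1 hf2 a1 a2 h5 ha2 hA1 hA2
    omega
  · have := key w2 w1 hww.symm hw2 hw1 hf2 hf1 a2 a1 h5 ha1 hA2 hA1
    omega

/-- **Main step.** -/
theorem flow_of_ClC (hc : St_contract) (src dst : E → V) (hcl : ClC src dst)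
    (hbr : Br src dst ∅ ∅) : FlowOn src dst ∅ ∅ := by
  classical
  by_contra hn
  obtain ⟨s, d, hMa, hM⟩ := exists_minC ccC src dst hcl hbr hn
  have h3 := threeC hc hM
  have hgi := girthC hc hM
  by_cases hl : ∀ e, s e = d e
  · exact hM.nf (flow_of_loops hl)
  push Not at hl
  obtain ⟨e, he⟩ := hl
  have hall : ∀ k, ∃ g, IsIP s d (k + 2) g := by
    intro k
    induction k with
    | zero =>
      refine ⟨fun i => if i = 0 then s e else d e, fun i j hij hj => ?_, fun i j hij hj => ?_⟩
      · have hi : i = 0 := by omega
        have hj' : j ≠ 0 := by omega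
        simp only [if_pos hi, if_neg hj']
        exact he
      · have hi : i = 0 := by omega
        have hj' : j ≠ 0 := by omega
        simp only [if_pos hi, if_neg hj']
        exact iff_of_true ⟨he, e, Or.inl ⟨rfl, rfl⟩⟩ (by omega)
    | succ k ih =>
      obtain ⟨g, hg⟩ := ih
      exact extend hgi h3 hMa hg (by omega)
  obtain ⟨g, hg⟩ := hall (Fintype.card V)
  have hinj : Function.Injective (fun i : Fin (Fintype.card V + 2) => g i.val) := by
    intro i j hij
    rcases lt_trichotomy i.val j.val with h | h | h
    · exact absurd hij (hg.inj _ _ h j.2)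
    · exact Fin.ext h
    · exact absurd hij.symm (hg.inj _ _ h i.2)
  have := Fintype.card_le_of_injective _ hinj
  rw [Fintype.card_fin] at this
  omega

end

end Pool.Agent.X65.FT
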