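import Pool.Agent.Y358.IN.Ind2

/-! Cuts of a graph that is a minimal counterexample with respect to contractions have at least
three edges. -/

set_option autoImplicit false
set_option linter.unusedSectionVars false

namespace Pool.Agent.X65.FT

open Finset Pool.Agent.TH676.Z Pool.Agent.Y335.FL Pool.Agent.Y358.IN

namespace CutM

open Pool.Agent.TH676.Z.Cut3

variable {V E : Type} [Fintype V] [DecidableEq V] [Fintype E] [DecidableEq E]

/-- the two flows at a cut -/
theorem sides {src dst : E → V} (h : MinC src dst) (Y : Finset V)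
    (h1 : ∃ e, src e ≠ dst e ∧ src e ∈ Y ∧ dst e ∈ Y)
    (h2 : ∃ e, src e ≠ dst e ∧ src e ∉ Y ∧ dst e ∉ Y) :
    ∃ f1 f2 : E → ZMod 5, (∀ v, bd src dst f1 v = 0) ∧ (∀ v, bd src dst f2 v = 0) ∧
      (∀ e, (src e ∈ Y ∨ dst e ∈ Y) → f1 e ≠ 0) ∧
      (∀ e, (src e ∉ Y ∨ dst e ∉ Y) → f2 e ≠ 0) := by
  obtain ⟨f1, a1, _, a3⟩ := h.crit (univ.filter (fun e => src e ∉ Y ∧ dst e ∉ Y)) (by
    obtain ⟨e, he, he2⟩ := h2
    exact ⟨e, by simpa using he2, he⟩)
  obtain ⟨f2, b1, _, b3⟩ := h.crit (univ.filter (fun e => src e ∈ Y ∧ dst e ∈ Y)) (by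
    obtain ⟨e, he, he2⟩ := h1
    exact ⟨e, by simpa using he2, he⟩)
  refine ⟨f1, f2, a1, b1, fun e he => a3 e (notMem_empty _) ?_,
    fun e he => b3 e (notMem_empty _) ?_⟩
  · simp only [mem_filter, mem_univ, true_and]; tauto
  · simp only [mem_filter, mem_univ, true_and]; tauto

/-- every edge cut with non-isolated vertices on both sides has at least three edges -/
theorem three_le {src dst : E → V} (h : MinC src dst) {Y : Finset V} {x y : V} (hx : x ∈ Y)
    (hy : y ∉ Y) (nx : Nis src dst x) (ny : Nis src dst y) : 3 ≤ (crs src dst Y).card := by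
  by_contra hlt
  have h1 : (crs src dst Y).card ≠ 1 := by
    have := h.br Y (disjoint_empty_right _)
    simpa using this
  have h02 : (crs src dst Y).card = 0 ∨ (crs src dst Y).card = 2 := by omega
  rcases h02 with h0 | h2
  · rw [card_eq_zero] at h0
    have hin : ∀ e, (src e ∈ Y ↔ dst e ∈ Y) := by
      intro e
      by_contra hc
      have := mem_crs.mpr hc
      rw [h0] at this
      exact absurd this (notMem_empty _)
    obtain ⟨f1, f2, a1, a2, a3, a4⟩ := sides h Y (by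
      obtain ⟨e, he, he2⟩ := nx
      refine ⟨e, he, ?_⟩
      rcases he2 with he2 | he2
      · have : src e ∈ Y := he2 ▸ hx
        exact ⟨this, (hin e).mp this⟩
      · have : dst e ∈ Y := he2 ▸ hx
        exact ⟨(hin e).mpr this, this⟩) (by
      obtain ⟨e, he, he2⟩ := ny
      refine ⟨e, he, ?_⟩
      rcases he2 with he2 | he2
      · have : src e ∉ Y := he2 ▸ hy
        exact ⟨this, fun hd => this ((hin e).mpr hd)⟩
      · have : dst e ∉ Y := he2 ▸ hy
        exact ⟨fun hd => this ((hin e).mp hd), this⟩)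
    refine h.nf (glue (Y := Y) (f1 := f1) (f2 := f2)
      (fun v _ => a1 v) (fun v _ => a2 v) a3 (fun e he _ => a4 e (Or.inl he)) ?_)
    intro e he
    rw [h0] at he
    exact absurd he (notMem_empty _)
  · obtain ⟨e1, e2, hne, hY⟩ := card_eq_two.mp h2
    have he1 : e1 ∈ crs src dst Y := by rw [hY]; simp
    obtain ⟨f, hf1, _, hf2⟩ := h.crit {e1} ⟨e1, by simp, fun heq => by
      rw [mem_crs, heq] at he1; exact he1 Iff.rfl⟩
    have hsum := Cut3.sum_cut (src := src) (dst := dst) (f := f) (Y := Y) (fun v _ => hf1 v)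
    rw [hY, sum_pair hne] at hsum
    refine h.nf ⟨f, hf1, fun e he => absurd he (notMem_empty _), fun e _ _ => ?_⟩
    by_cases hee : e = e1
    · subst hee
      have h5 : f e2 ≠ 0 := hf2 e2 (notMem_empty _) (by simpa using hne.symm)
      intro h6
      rw [h6] at hsum
      apply h5
      by_cases h7 : src e2 ∈ Y
      · simpa [h7] using hsum
      · simpa [h7] using hsum
    · exact hf2 e (notMem_empty _) (by simpa using hee)

/-- ends of proper edges -/
theorem nis_of_adj {src dst : E → V} {x y : V} (h : Adj src dst x y) : Nis src dst x := by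
  obtain ⟨hne, e, he⟩ := h
  rcases he with ⟨a, b⟩ | ⟨a, b⟩
  · exact ⟨e, by rw [a, b]; exact hne, Or.inl a⟩
  · exact ⟨e, by rw [a, b]; exact hne.symm, Or.inr b⟩

/-- the pairs of adjacent vertices across a cut -/
theorem pairs {src dst : E → V} (hc : St_contract) (hM : MinC src dst)
    [DecidableRel (Adj src dst)] {A O : Finset V}
    {x y : V} (hx : x ∈ O) (hy : y ∉ O) (nx : Nis src dst x) (ny : Nis src dst y)
    (hout : ∀ u ∈ O, ∀ v, Adj src dst u v → v ∈ O ∨ v ∈ A) :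
    3 ≤ ((A ×ˢ O).filter fun p => Adj src dst p.1 p.2).card := by
  refine (three_le hM hx hy nx ny).trans ?_
  let g : E → V × V := fun e => if src e ∈ O then (dst e, src e) else (src e, dst e)
  have hA : ∀ e ∈ crs src dst O, (src e ∈ O ∧ dst e ∉ O ∧ dst e ∈ A ∧ Adj src dst (dst e) (src e)) ∨
      (src e ∉ O ∧ dst e ∈ O ∧ src e ∈ A ∧ Adj src dst (src e) (dst e)) := by
    intro e he
    rw [mem_crs] at he
    by_cases h1 : src e ∈ O
    · have h2 : dst e ∉ O := fun h2 => he (iff_of_true h1 h2)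
      have h3 : Adj src dst (src e) (dst e) := ⟨fun h => h2 (h ▸ h1), e, Or.inl ⟨rfl, rfl⟩⟩
      exact Or.inl ⟨h1, h2, (hout _ h1 _ h3).resolve_left h2, GiAux.adj_symm h3⟩
    · have h2 : dst e ∈ O := by
        by_contra h2
        exact he (iff_of_false h1 h2)
      have h3 : Adj src dst (dst e) (src e) := ⟨fun h => h1 (h ▸ h2), e, Or.inr ⟨rfl, rfl⟩⟩
      exact Or.inr ⟨h1, h2, (hout _ h2 _ h3).resolve_left h1, GiAux.adj_symm h3⟩
  refine card_le_card_of_injOn g ?_ ?_
  · intro e he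
    rcases hA e he with ⟨h1, _, h3, h4⟩ | ⟨h1, h2, h3, h4⟩
    · simp only [g, if_pos h1]
      exact mem_coe.2 (mem_filter.2 ⟨mem_product.2 ⟨h3, h1⟩, h4⟩)
    · simp only [g, if_neg h1]
      exact mem_coe.2 (mem_filter.2 ⟨mem_product.2 ⟨h3, h2⟩, h4⟩)
  · intro e he e' he' hgg
    rcases hA e he with ⟨h1, h2, h3, h4⟩ | ⟨h1, h2, h3, h4⟩ <;>
      rcases hA e' he' with ⟨k1, k2, k3, k4⟩ | ⟨k1, k2, k3, k4⟩
    · simp only [g, if_pos h1, if_pos k1] at hgg
      obtain ⟨a, b⟩ := Prod.mk.injEq _ _ _ _ ▸ hgg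
      exact no_par hc hM h4.1.symm (Or.inl ⟨rfl, rfl⟩) (Or.inl ⟨b.symm, a.symm⟩)
    · simp only [g, if_pos h1, if_neg k1] at hgg
      obtain ⟨a, b⟩ := Prod.mk.injEq _ _ _ _ ▸ hgg
      exact no_par hc hM h4.1.symm (Or.inl ⟨rfl, rfl⟩) (Or.inr ⟨a.symm, b.symm⟩)
    · simp only [g, if_neg h1, if_pos k1] at hgg
      obtain ⟨a, b⟩ := Prod.mk.injEq _ _ _ _ ▸ hgg
      exact no_par hc hM h4.1 (Or.inl ⟨rfl, rfl⟩) (Or.inr ⟨b.symm, a.symm⟩)
    · simp only [g, if_neg h1, if_neg k1] at hgg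
      obtain ⟨a, b⟩ := Prod.mk.injEq _ _ _ _ ▸ hgg
      exact no_par hc hM h4.1 (Or.inl ⟨rfl, rfl⟩) (Or.inl ⟨a.symm, b.symm⟩)

end CutM

end Pool.Agent.X65.FT
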