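import Pool.Agent.X65.FT.Dom
import Pool.Agent.X65.FT.Cut
import Pool.Agent.H168DD.TB

/-! Graphs without matchings with 63 edges. -/

set_option autoImplicit false
set_option linter.unusedSectionVars false

namespace Pool.Agent.X65.FT

open Finset Pool.Agent.TH676.Z Pool.Agent.Y335.FL Pool.Agent.Y358.IN

section

variable {V E : Type} [Fintype V] [DecidableEq V] [Fintype E] [DecidableEq E]

/-- `M` is a matching -/
def IsM (src dst : E → V) (M : Finset E) : Prop :=
  (∀ e ∈ M, src e ≠ dst e) ∧ ∀ e ∈ M, ∀ e' ∈ M, e ≠ e' →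
    src e ≠ src e' ∧ src e ≠ dst e' ∧ dst e ≠ src e' ∧ dst e ≠ dst e'

/-- the class -/
def ClM (src dst : E → V) : Prop := ∀ M : Finset E, IsM src dst M → M.card ≤ 62

theorem ccM : CC (V := V) (E := E) ClM := by
  intro src dst e h _ M hM
  apply h M
  obtain ⟨h1, h2⟩ := hM
  refine ⟨fun e he hh => h1 e he ?_, fun e he e' he' hne => ?_⟩
  · simp only [Function.comp, hh]
  · obtain ⟨a, b, c, d⟩ := h2 e he e' he' hne
    refine ⟨fun hh => a ?_, fun hh => b ?_, fun hh => c ?_, fun hh => d ?_⟩ <;>
      simp only [Function.comp, hh]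

/-- from an involution along edges to a matching -/
theorem exists_M {src dst : E → V} (R : Finset V) (m : V → V)
    (hm : ∀ x ∈ R, m x ∈ R ∧ m (m x) = x ∧ Adj src dst x (m x)) :
    ∃ M : Finset E, IsM src dst M ∧ R.card ≤ 2 * M.card := by
  classical
  rcases R.eq_empty_or_nonempty with rfl | ⟨x0, hx0⟩
  · exact ⟨∅, ⟨by simp, by simp⟩, by simp⟩
  obtain ⟨e0, -⟩ := (hm x0 hx0).2.2.2
  let q := Fintype.equivFin V
  let P := R.filter (fun x => q x < q (m x))
  have hP : ∀ x ∈ P, x ∈ R ∧ q x < q (m x) := fun x hx => mem_filter.1 hx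
  have hcov : R ⊆ P ∪ P.image m := by
    intro x hx
    obtain ⟨h1, h2, h3⟩ := hm x hx
    rcases lt_trichotomy (q x) (q (m x)) with h | h | h
    · exact mem_union_left _ (mem_filter.2 ⟨hx, h⟩)
    · exact absurd (q.injective h) h3.1
    · apply mem_union_right
      refine mem_image.2 ⟨m x, mem_filter.2 ⟨h1, ?_⟩, h2⟩
      rw [h2]
      exact h
  have hcard : R.card ≤ 2 * P.card := by
    calc R.card ≤ (P ∪ P.image m).card := card_le_card hcov
      _ ≤ P.card + (P.image m).card := card_union_le _ _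
      _ ≤ P.card + P.card := Nat.add_le_add_left card_image_le _
      _ = 2 * P.card := by ring
  have hed : ∀ x, ∃ e : E, x ∈ R → Jn src dst e x (m x) := by
    intro x
    by_cases hx : x ∈ R
    · obtain ⟨e, he⟩ := (hm x hx).2.2.2
      exact ⟨e, fun _ => he⟩
    · exact ⟨e0, fun h => absurd h hx⟩
  choose ed hed using hed
  have hne : ∀ x ∈ P, ∀ y ∈ P, x ≠ m y := by
    intro x hx y hy hxy
    have h1 := (hP x hx).2
    have h2 := (hP y hy).2
    rw [hxy, (hm y (hP y hy).1).2.1] at h1
    exact absurd (lt_trans h1 h2) (lt_irrefl _)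
  have hmm : ∀ x ∈ P, ∀ y ∈ P, x ≠ y → m x ≠ m y := by
    intro x hx y hy hxy h
    apply hxy
    rw [← (hm x (hP x hx).1).2.1, h, (hm y (hP y hy).1).2.1]
  have hsep : ∀ x ∈ P, ∀ y ∈ P, x ≠ y → src (ed x) ≠ src (ed y) ∧ src (ed x) ≠ dst (ed y) ∧
      dst (ed x) ≠ src (ed y) ∧ dst (ed x) ≠ dst (ed y) := by
    intro x hx y hy hxy
    have h1 := hmm x hx y hy hxy
    have h2 := hne x hx y hy
    have h3 := (hne y hy x hx).symm
    rcases hed x (hP x hx).1 with ⟨a, b⟩ | ⟨a, b⟩ <;>
      rcases hed y (hP y hy).1 with ⟨c, d⟩ | ⟨c, d⟩ <;> rw [a, b, c, d] <;>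
      refine ⟨?_, ?_, ?_, ?_⟩ <;> first | assumption | exact hxy
  have hinj : Set.InjOn ed (P : Set V) := by
    intro x hx y hy hxy
    by_contra hne'
    exact (hsep x hx y hy hne').1 (by rw [hxy])
  refine ⟨P.image ed, ⟨?_, ?_⟩, by rw [card_image_of_injOn hinj]; exact hcard⟩
  · intro e he
    obtain ⟨x, hx, rfl⟩ := mem_image.1 he
    exact jn_ne (hm x (hP x hx).1).2.2.1 (hed x (hP x hx).1)
  · intro e he e' he' hee
    obtain ⟨x, hx, rfl⟩ := mem_image.1 he
    obtain ⟨y, hy, rfl⟩ := mem_image.1 he'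
    exact hsep x hx y hy (fun h => hee (by rw [h]))

/-- **Main step.** -/
theorem flow_of_ClM (hc : St_contract) (src dst : E → V) (hcl : ClM src dst)
    (hbr : Br src dst ∅ ∅) : FlowOn src dst ∅ ∅ := by
  classical
  by_contra hn
  obtain ⟨s, d, hMa, hM⟩ := exists_minC ccM src dst hcl hbr hn
  have h3 := threeC hc hM
  have hgi := girthC hc hM
  by_cases hl : ∀ e, s e = d e
  · exact hM.nf (flow_of_loops hl)
  push Not at hl
  obtain ⟨e, he⟩ := hl
  let G : SimpleGraph V :=
    { Adj := Adj s d
      symm := ⟨fun a b h => GiAux.adj_symm h⟩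
      loopless := ⟨fun a h => h.1 rfl⟩ }
  have hG : ∀ a b, G.Adj a b ↔ Adj s d a b := fun a b => Iff.rfl
  have h12 : ∀ (w : V) (c : G.Walk w w), c.IsCycle → 12 ≤ c.length :=
    fun w c hc => Ord.cycle_len hgi G hG c hc
  have hxy : G.Adj (s e) (d e) := ⟨he, e, Or.inl ⟨rfl, rfl⟩⟩
  obtain ⟨X, hX, hXn, hX4, hX3⟩ := exists_X h12 (fun x y h => h3 x y h) hxy
  obtain ⟨T, hT⟩ : ∃ T : Finset V, T = univ.filter fun v => ∃ z, G.Adj v z := ⟨_, rfl⟩
  have hmT : ∀ v, v ∈ T ↔ ∃ z, G.Adj v z := fun v => by
    rw [hT, mem_filter]; exact ⟨fun h => h.2, fun h => ⟨mem_univ _, h⟩⟩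
  have hXT : X ⊆ T := fun v hv => (hmT v).2 (hXn v hv)
  have hcT : (T \ X).card = T.card - 126 := by rw [card_sdiff_of_subset hXT, hX]
  have hc126 : 126 ≤ T.card := by
    have := card_le_card hXT
    omega
  have hnis : ∀ v ∈ T, Nis s d v := fun v hv => by
    obtain ⟨z, hz⟩ := (hmT v).1 hv
    exact CutM.nis_of_adj hz
  obtain ⟨U, m, hU, hUl, hm⟩ := H168DD.tutte_berge G T (T.card - 126)
    (by rw [Nat.even_iff]; omega) (by
    intro A F hAT hodd hdis hFT hclo
    by_contra hcon
    push Not at hcon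
    have hne : ∀ O ∈ F, O.Nonempty := fun O hO => card_pos.1 (hodd O hO).pos
    have hout : ∀ O ∈ F, ∀ u ∈ O, ∀ v, Adj s d u v → v ∈ O ∨ v ∈ A := by
      intro O hO u hu v huv
      exact hclo O hO u hu v ((hmT v).2 ⟨u, G.adj_symm huv⟩) huv
    have hOT : ∀ O ∈ F, O ⊆ T := fun O hO => (hFT O hO).trans sdiff_subset
    rcases A.eq_empty_or_nonempty with rfl | ⟨a0, ha0⟩
    · have hall : ∀ O ∈ F, O = T := by
        intro O hO
        by_contra hOne
        obtain ⟨x, hx⟩ := hne O hO
        obtain ⟨y, hy, hyO⟩ : ∃ y ∈ T, y ∉ O := by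
          by_contra hh
          push Not at hh
          exact hOne (Subset.antisymm (hOT O hO) hh)
        have h5 := CutM.pairs (A := ∅) hc hM hx hyO (hnis x (hOT O hO hx)) (hnis y hy)
          (hout O hO)
        simp at h5
      have hF1 : F ⊆ {T} := fun O hO => mem_singleton.2 (hall O hO)
      have hF2 : F.card ≤ 1 := by simpa using card_le_card hF1
      have hF3 : 0 < F.card := by omega
      obtain ⟨O, hO⟩ := card_pos.1 hF3
      have hO2 := hodd O hO
      rw [hall O hO, Nat.odd_iff] at hO2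
      simp only [card_empty] at hcon
      omega
    · have hp : ∀ O ∈ F, 3 ≤ ((A ×ˢ O).filter fun p => Adj s d p.1 p.2).card := by
        intro O hO
        obtain ⟨x, hx⟩ := hne O hO
        have ha : a0 ∉ O := fun h => (mem_sdiff.1 (hFT O hO h)).2 ha0
        exact CutM.pairs hc hM hx ha (hnis x (hOT O hO hx)) (hnis a0 (hAT ha0)) (hout O hO)
      -- the members of `F` inside `X`
      have h6 : 3 * (F.filter (· ⊆ X)).card ≤ 3 * (A ∩ X).card + 4 * (A \ X).card := by
        have h7 : 3 * (F.filter (· ⊆ X)).card ≤ ∑ O ∈ F.filter (· ⊆ X),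
            ((A ×ˢ O).filter fun p => Adj s d p.1 p.2).card := by
          have := card_nsmul_le_sum (F.filter (· ⊆ X)) (fun O =>
            ((A ×ˢ O).filter fun p => Adj s d p.1 p.2).card) 3
            (fun O hO => hp O (mem_filter.1 hO).1)
          rw [smul_eq_mul] at this
          omega
        have h8 : ∑ O ∈ F.filter (· ⊆ X), ((A ×ˢ O).filter fun p => Adj s d p.1 p.2).card
            = ((F.filter (· ⊆ X)).biUnion
              fun O => (A ×ˢ O).filter fun p => Adj s d p.1 p.2).card := by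
          rw [card_biUnion]
          intro O hO O' hO' hOO
          rw [Function.onFun, disjoint_left]
          intro p hp1 hp2
          have a1 := (mem_product.1 (mem_filter.1 hp1).1).2
          have a2 := (mem_product.1 (mem_filter.1 hp2).1).2
          exact disjoint_left.1 (hdis O (mem_filter.1 hO).1 O' (mem_filter.1 hO').1 hOO) a1 a2
        have h9 : ((F.filter (· ⊆ X)).biUnion
              fun O => (A ×ˢ O).filter fun p => Adj s d p.1 p.2) ⊆
            A.biUnion fun a => (X.filter fun v => G.Adj a v).image fun v => (a, v) := by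
          intro p hp'
          obtain ⟨O, hO, hpO⟩ := mem_biUnion.1 hp'
          obtain ⟨b1, b2⟩ := mem_filter.1 hpO
          obtain ⟨b3, b4⟩ := mem_product.1 b1
          exact mem_biUnion.2 ⟨p.1, b3, mem_image.2 ⟨p.2,
            mem_filter.2 ⟨(mem_filter.1 hO).2 b4, b2⟩, rfl⟩⟩
        have h10 : (A.biUnion fun a => (X.filter fun v => G.Adj a v).image fun v => (a, v)).card
            ≤ ∑ a ∈ A, (if a ∈ X then 3 else 4) := by
          refine card_biUnion_le.trans (sum_le_sum fun a _ => card_image_le.trans ?_)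
          split_ifs with ha
          · exact hX3 a ha _ (filter_subset _ _) fun v hv => (mem_filter.1 hv).2
          · exact hX4 a _ (filter_subset _ _) fun v hv => (mem_filter.1 hv).2
        have h11 : ∑ a ∈ A, (if a ∈ X then 3 else 4) = 3 * (A ∩ X).card + 4 * (A \ X).card := by
          rw [sum_ite, sum_const, sum_const, smul_eq_mul, smul_eq_mul, filter_mem_eq_inter,
            filter_notMem_eq_sdiff]
          ring
        have h12 := card_le_card h9
        omega
      have h7 : (F.filter (fun O => ¬ O ⊆ X)).card + (A \ X).card ≤ (T \ X).card := by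
        have h8 : (F.filter (fun O => ¬ O ⊆ X)).card ≤
            ((F.filter (fun O => ¬ O ⊆ X)).biUnion fun O => O \ X).card := by
          rw [card_biUnion]
          · rw [card_eq_sum_ones]
            refine sum_le_sum fun O hO => ?_
            have := (mem_filter.1 hO).2
            rw [Nat.one_le_iff_ne_zero, Ne, card_eq_zero, sdiff_eq_empty_iff_subset]
            exact this
          · intro O hO O' hO' hOO
            rw [Function.onFun]
            exact (hdis O (mem_filter.1 hO).1 O' (mem_filter.1 hO').1 hOO).mono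
              sdiff_subset sdiff_subset
        have h9 : Disjoint ((F.filter (fun O => ¬ O ⊆ X)).biUnion fun O => O \ X) (A \ X) := by
          rw [disjoint_left]
          intro v hv hvA
          obtain ⟨O, hO, hvO⟩ := mem_biUnion.1 hv
          exact (mem_sdiff.1 (hFT O (mem_filter.1 hO).1 (mem_sdiff.1 hvO).1)).2
            (mem_sdiff.1 hvA).1
        have h10 : ((F.filter (fun O => ¬ O ⊆ X)).biUnion fun O => O \ X) ∪ (A \ X) ⊆ T \ X := by
          intro v hv
          rcases mem_union.1 hv with hv | hv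
          · obtain ⟨O, hO, hvO⟩ := mem_biUnion.1 hv
            obtain ⟨c1, c2⟩ := mem_sdiff.1 hvO
            exact mem_sdiff.2 ⟨hOT O (mem_filter.1 hO).1 c1, c2⟩
          · obtain ⟨c1, c2⟩ := mem_sdiff.1 hv
            exact mem_sdiff.2 ⟨hAT c1, c2⟩
        have h11 := card_le_card h10
        rw [card_union_of_disjoint h9] at h11
        omega
      have h8 : F.card = (F.filter (· ⊆ X)).card + (F.filter (fun O => ¬ O ⊆ X)).card :=
        (card_filter_add_card_filter_not _).symm
      have h9 : A.card = (A ∩ X).card + (A \ X).card := (card_inter_add_card_sdiff A X).symm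
      omega)
  obtain ⟨M, hM1, hM2⟩ := exists_M (src := s) (dst := d) (T \ U) m hm
  have h4 := hMa M hM1
  have h5 : (T \ U).card = T.card - U.card := card_sdiff_of_subset hU
  omega

end

end Pool.Agent.X65.FT
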