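import Pool.Agent.X65.FT.Sparse

/-! Graphs without many disjoint connected sets with `2 ^ j - 1` vertices of degree at least
three. -/

set_option autoImplicit false
set_option linter.unusedSectionVars false

namespace Pool.Agent.X65.FT

open Finset Pool.Agent.TH676.Z Pool.Agent.Y335.FL Pool.Agent.Y358.IN

section

variable {V E : Type} [Fintype V] [DecidableEq V] [Fintype E] [DecidableEq E]

/-- the class -/
def ClP (K m : ℕ) (src dst : E → V) : Prop := ∀ (n : ℕ) (C : Fin n → Finset V),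
  (∀ i, Conn src dst (C i)) → (∀ i, K ≤ ((C i).filter fun x => 3 ≤ dg src dst x).card) →
  (∀ i i', i ≠ i' → Disjoint (C i) (C i')) → n < m

theorem ccP (K m : ℕ) (hK : 1 ≤ K) : CC (V := V) (E := E) (ClP K m) := by
  classical
  intro src dst e h hne n C' hC hd hdis
  have huv : Adj src dst (src e) (dst e) := ⟨hne, e, Or.inl ⟨rfl, rfl⟩⟩
  refine h n (fun i => univ.filter fun z => ctr (src e) (dst e) z ∈ C' i) ?_ ?_ ?_
  · intro i
    refine conn_pre huv (hC i) ?_
    intro hv
    by_cases h1 : C' i = {dst e}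
    · have h2 := hd i
      obtain ⟨x, hx⟩ := card_pos.1 (lt_of_lt_of_le (by omega) h2)
      obtain ⟨h3, h4⟩ := mem_filter.1 hx
      rw [h1, mem_singleton] at h3
      rw [h3, Ord.dg_ctr_v src dst hne] at h4
      omega
    · obtain ⟨x, hx, y, hy, _, hxy⟩ := hC i {dst e} (singleton_subset_iff.2 hv)
        (singleton_nonempty _) (fun h => h1 h.symm)
      rw [mem_singleton] at hx
      rw [hx] at hxy
      exact not_adj_v hne hxy
  · intro i
    obtain ⟨B, hc, hdB, hm, hi⟩ := lift_set e hne ((C' i).filter fun x =>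
      3 ≤ dg (ctr (src e) (dst e) ∘ src) (ctr (src e) (dst e) ∘ dst) x)
      (fun x hx => (mem_filter.1 hx).2)
    refine (hd i).trans (hc ▸ card_le_card fun x hx => ?_)
    exact mem_filter.2 ⟨mem_filter.2 ⟨mem_univ _, (mem_filter.1 (hm x hx)).1⟩, hdB x hx⟩
  · intro i i' hii
    rw [disjoint_left]
    intro x hx hx'
    exact disjoint_left.1 (hdis i i' hii) (mem_filter.1 hx).2 (mem_filter.1 hx').2

end

section tree

variable {V : Type} [Fintype V] [DecidableEq V] {G : SimpleGraph V} (N : Nx G)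

/-- the subtree below the word `l` -/
def Sub (p w : V) (l : List Bool) (n : ℕ) : Finset V := (Ls n).image fun m => cur N p w (l ++ m)

theorem mem_Sub {p w : V} {l : List Bool} {n : ℕ} {v : V} : v ∈ Sub N p w l n ↔
    ∃ m : List Bool, m.length ≤ n ∧ v = cur N p w (l ++ m) := by
  unfold Sub
  rw [mem_image]
  constructor
  · rintro ⟨m, h1, h2⟩
    exact ⟨m, (mem_Ls n m).1 h1, h2.symm⟩
  · rintro ⟨m, h1, h2⟩
    exact ⟨m, (mem_Ls n m).2 h1, h2.symm⟩

theorem Sub_mono (p w : V) (l : List Bool) (n : ℕ) : Sub N p w l n ⊆ Sub N p w l (n + 1) := by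
  intro v hv
  obtain ⟨m, h1, h2⟩ := (mem_Sub N).1 hv
  exact (mem_Sub N).2 ⟨m, by omega, h2⟩

theorem Sub_step {p w : V} (hpw : G.Adj p w) {l : List Bool} {n : ℕ} {v : V}
    (hv : v ∈ Sub N p w l (n + 1)) : v ∈ Sub N p w l n ∨ ∃ a ∈ Sub N p w l n, G.Adj a v := by
  obtain ⟨m, hm, rfl⟩ := (mem_Sub N).1 hv
  by_cases h1 : m.length ≤ n
  · exact Or.inl ((mem_Sub N).2 ⟨m, h1, rfl⟩)
  · have h2 : m ≠ [] := by rintro rfl; simp at h1
    obtain ⟨m', b, rfl⟩ : ∃ m' b, m = m' ++ [b] := ⟨_, _, (List.dropLast_append_getLast h2).symm⟩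
    rw [List.length_append, List.length_singleton] at hm
    refine Or.inr ⟨_, (mem_Sub N).2 ⟨m', by omega, rfl⟩, ?_⟩
    rw [← List.append_assoc]
    exact cur_adj N (l ++ m') b hpw

/-- the roots -/
def Rt (j : ℕ) : Finset (Bool × List Bool) :=
  (univ : Finset Bool) ×ˢ ((Ls (6 - j)).filter fun l => (6 - l.length) % j = 0)

theorem card_Rt : ∀ j ∈ Finset.Icc 1 6, (Rt j).card = 126 / (2 ^ j - 1) := by decide +kernel

theorem card_Lsj : ∀ j ∈ Finset.Icc 1 6, (Ls (j - 1)).card = 2 ^ j - 1 := by decide +kernel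

variable (h12 : ∀ (w : V) (c : G.Walk w w), c.IsCycle → 12 ≤ c.length)
include h12

theorem card_Sub {p w : V} (h : G.Adj p w) {l : List Bool} {n : ℕ} (hl : l.length + n ≤ 5) :
    (Sub N p w l n).card = (Ls n).card := by
  unfold Sub
  refine card_image_of_injOn ?_
  intro m hm m' hm' he
  have h1 := (mem_Ls n m).1 hm
  have h2 := (mem_Ls n m').1 hm'
  have := cur_inj N h12 (l ++ m) (l ++ m') h (by simp; omega) (by simp; omega) (by simp; omega) he
  exact List.append_cancel_left this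

theorem Sub_disj {p w : V} (h : G.Adj p w) {j : ℕ} (hj : 1 ≤ j) {l l' : List Bool}
    (hl : l.length + (j - 1) ≤ 5) (hl' : l'.length + (j - 1) ≤ 5)
    (hmod : (6 - l.length) % j = 0) (hmod' : (6 - l'.length) % j = 0) (hne : l ≠ l') :
    Disjoint (Sub N p w l (j - 1)) (Sub N p w l' (j - 1)) := by
  rw [disjoint_left]
  intro v hv hv'
  obtain ⟨m, h1, rfl⟩ := (mem_Sub N).1 hv
  obtain ⟨m', h2, he⟩ := (mem_Sub N).1 hv'
  have h3 := cur_inj N h12 (l ++ m) (l' ++ m') h (by simp; omega) (by simp; omega)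
    (by simp; omega) he
  have h4 := congrArg List.length h3
  rw [List.length_append, List.length_append] at h4
  obtain ⟨a, ha⟩ := Nat.dvd_of_mod_eq_zero hmod
  obtain ⟨b, hb⟩ := Nat.dvd_of_mod_eq_zero hmod'
  have h5 : l.length = l'.length := by
    rcases lt_trichotomy a b with h6 | h6 | h6
    · exfalso
      have : j * (a + 1) ≤ j * b := Nat.mul_le_mul_left j h6
      rw [Nat.mul_add, Nat.mul_one] at this
      omega
    · rw [h6] at ha; omega
    · exfalso
      have : j * (b + 1) ≤ j * a := Nat.mul_le_mul_left j h6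
      rw [Nat.mul_add, Nat.mul_one] at this
      omega
  exact hne (List.append_inj h3 h5).1

theorem Sub_side {p w : V} {l : List Bool} {n : ℕ} (hl : l.length + n ≤ 5) :
    Sub N p w l n ⊆ side N p w := by
  intro v hv
  obtain ⟨m, h1, rfl⟩ := (mem_Sub N).1 hv
  exact (mem_side N).2 ⟨l ++ m, by simp; omega, rfl⟩

end tree

section

variable {V E : Type} [Fintype V] [DecidableEq V] [Fintype E] [DecidableEq E]

/-- **Main step.** -/
theorem flow_of_ClP (hc : St_contract) (src dst : E → V) (j : ℕ) (hj : 1 ≤ j) (hj6 : j ≤ 6)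
    (hcl : ClP (2 ^ j - 1) (126 / (2 ^ j - 1)) src dst)
    (hbr : Br src dst ∅ ∅) : FlowOn src dst ∅ ∅ := by
  classical
  by_contra hn
  have hK : 1 ≤ 2 ^ j - 1 := by
    have : 2 ^ 1 ≤ 2 ^ j := Nat.pow_le_pow_right (by norm_num) hj
    omega
  obtain ⟨s, d, hMa, hM⟩ := exists_minC (ccP (2 ^ j - 1) (126 / (2 ^ j - 1)) hK) src dst hcl hbr hn
  have h3 := threeC hc hM
  have hgi := girthC hc hM
  by_cases hl : ∀ e, s e = d e
  · exact hM.nf (flow_of_loops hl)
  push Not at hl
  obtain ⟨e, he⟩ := hl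
  let G : SimpleGraph V :=
    { Adj := Adj s d
      symm := ⟨fun a b h => GiAux.adj_symm h⟩
      loopless := ⟨fun a h => h.1 rfl⟩ }
  have hG : ∀ a b, G.Adj a b ↔ Adj s d a b := fun a b => Iff.rfl
  have h12 : ∀ (w : V) (c : G.Walk w w), c.IsCycle → 12 ≤ c.length :=
    fun w c hc => Ord.cycle_len hgi G hG c hc
  have hxy : G.Adj (s e) (d e) := ⟨he, e, Or.inl ⟨rfl, rfl⟩⟩
  obtain ⟨N⟩ := exists_nx (G := G) (fun x y h => h3 x y h)
  have hconn : ∀ {p w : V}, G.Adj p w → ∀ l n, Conn s d (Sub N p w l n) := by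
    intro p w hpw l n
    induction n with
    | zero =>
      have h4 : Sub N p w l 0 = {cur N p w l} := by
        ext v
        rw [mem_Sub, mem_singleton]
        constructor
        · rintro ⟨m, hm, rfl⟩
          have : m = [] := List.eq_nil_of_length_eq_zero (by omega)
          rw [this, List.append_nil]
        · rintro rfl
          exact ⟨[], le_rfl, by rw [List.append_nil]⟩
      rw [h4]
      intro B hB hne hBA
      exfalso
      apply hBA
      refine Subset.antisymm hB (singleton_subset_iff.2 ?_)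
      obtain ⟨b, hb⟩ := hne
      have := mem_singleton.1 (hB hb)
      rwa [this] at hb
    | succ n ih =>
      have h1 := conn_union ih (Sub N p w l (n + 1) \ Sub N p w l n) (fun z hz => by
        obtain ⟨h4, h5⟩ := mem_sdiff.1 hz
        obtain ⟨a, ha, haz⟩ := (Sub_step N hpw h4).resolve_left h5
        exact ⟨a, ha, haz⟩)
      rwa [union_sdiff_of_subset (Sub_mono N _ _ l n)] at h1
  have hdeg : ∀ {p w : V}, G.Adj p w → ∀ l n, l.length + n ≤ 5 →
      (Sub N p w l n).filter (fun x => 3 ≤ dg s d x) = Sub N p w l n := by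
    intro p w hpw l n hln
    refine filter_true_of_mem fun v hv => ?_
    obtain ⟨m, h1, rfl⟩ := (mem_Sub N).1 hv
    obtain ⟨P, _⟩ := wk N h12 (l ++ m) hpw (by simp; omega)
    obtain ⟨z, hz⟩ := Ord.nbr hpw.symm P
    exact Ord.three_dg h3 hz
  have hjI : j ∈ Finset.Icc 1 6 := mem_Icc.2 ⟨hj, hj6⟩
  let C0 : Bool × List Bool → Finset V := fun q =>
    if q.1 then Sub N (d e) (s e) q.2 (j - 1) else Sub N (s e) (d e) q.2 (j - 1)
  have hR : ∀ q ∈ Rt j, q.2.length + (j - 1) ≤ 5 ∧ (6 - q.2.length) % j = 0 := by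
    intro q hq
    obtain ⟨_, h2⟩ := mem_product.1 hq
    obtain ⟨h4, h5⟩ := mem_filter.1 h2
    have := (mem_Ls (6 - j) q.2).1 h4
    exact ⟨by omega, h5⟩
  have hcr := card_Rt j hjI
  have h7 := hMa (Rt j).card (fun i => C0 ((Rt j).equivFin.symm i).1) ?_ ?_ ?_
  · omega
  · intro i
    simp only [C0]
    split_ifs
    · exact hconn hxy.symm _ _
    · exact hconn hxy _ _
  · intro i
    have h8 := hR _ ((Rt j).equivFin.symm i).2
    simp only [C0]
    split_ifs
    · rw [hdeg hxy.symm _ _ h8.1, card_Sub N h12 hxy.symm h8.1, card_Lsj j hjI]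
    · rw [hdeg hxy _ _ h8.1, card_Sub N h12 hxy h8.1, card_Lsj j hjI]
  · intro i i' hii
    have h8 := hR _ ((Rt j).equivFin.symm i).2
    have h8' := hR _ ((Rt j).equivFin.symm i').2
    have hne : ((Rt j).equivFin.symm i).1 ≠ ((Rt j).equivFin.symm i').1 := fun h =>
      hii ((Rt j).equivFin.symm.injective (Subtype.ext h))
    have hdis : ∀ l l' : List Bool, l.length + (j - 1) ≤ 5 → l'.length + (j - 1) ≤ 5 →
        Disjoint (Sub N (d e) (s e) l (j - 1)) (Sub N (s e) (d e) l' (j - 1)) := by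
      intro l l' g1 g2
      rw [disjoint_left]
      intro v hv hv'
      exact side_disj N h12 hxy (Sub_side N h12 g2 hv') (Sub_side N h12 g1 hv)
    simp only [C0]
    split_ifs with g1 g2 g2
    · refine Sub_disj N h12 hxy.symm hj h8.1 h8'.1 h8.2 h8'.2 fun h => hne ?_
      exact Prod.ext (g1.trans g2.symm) h
    · exact hdis _ _ h8.1 h8'.1
    · exact (hdis _ _ h8'.1 h8.1).symm
    · refine Sub_disj N h12 hxy hj h8.1 h8'.1 h8.2 h8'.2 fun h => hne ?_
      refine Prod.ext ?_ h
      rw [Bool.not_eq_true] at g1 g2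
      exact g1.trans g2.symm

end

end Pool.Agent.X65.FT
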