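import Pool.Agent.X65.FT.Hole
import Pool.Agent.X65.FT.Dom

/-! Graphs in which every connected set of vertices has at most 63 neighbours of degree at least
three. -/

set_option autoImplicit false
set_option linter.unusedSectionVars false

namespace Pool.Agent.X65.FT

open Finset Pool.Agent.TH676.Z Pool.Agent.Y335.FL Pool.Agent.Y358.IN

section

variable {V E : Type} [Fintype V] [DecidableEq V] [Fintype E] [DecidableEq E]

/-- `A` is connected -/
def Conn (src dst : E → V) (A : Finset V) : Prop :=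
  ∀ B ⊆ A, B.Nonempty → B ≠ A → ∃ x ∈ B, ∃ y ∈ A, y ∉ B ∧ Adj src dst x y

open Classical in
/-- the neighbours of degree at least three -/
noncomputable def nb (src dst : E → V) (A : Finset V) : Finset V :=
  univ.filter fun v => v ∉ A ∧ 3 ≤ dg src dst v ∧ ∃ a ∈ A, Adj src dst a v

theorem mem_nb {src dst : E → V} {A : Finset V} {v : V} : v ∈ nb src dst A ↔
    v ∉ A ∧ 3 ≤ dg src dst v ∧ ∃ a ∈ A, Adj src dst a v := by
  classical
  unfold nb
  rw [mem_filter]
  exact ⟨fun h => h.2, fun h => ⟨mem_univ _, h⟩⟩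

/-- the class -/
def ClL (src dst : E → V) : Prop := ∀ A, Conn src dst A → (nb src dst A).card ≤ 63

theorem conn_insert {src dst : E → V} {A : Finset V} {a z : V} (h : Conn src dst A) (ha : a ∈ A)
    (haz : Adj src dst a z) : Conn src dst (insert z A) := by
  intro B hB hne hBA
  by_cases hzB : z ∈ B
  · by_cases haB : a ∈ B
    · by_cases hzA : z ∈ A
      · rw [insert_eq_of_mem hzA] at hB hBA ⊢
        exact h B hB hne hBA
      · obtain ⟨x, hx, y, hy, hyB, hxy⟩ := h (B.erase z) (fun w hw => by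
            rcases mem_insert.1 (hB (mem_of_mem_erase hw)) with h1 | h1
            · exact absurd h1 (mem_erase.1 hw).1
            · exact h1) ⟨a, mem_erase.2 ⟨fun h1 => haz.1 h1, haB⟩⟩ (fun h1 => hBA (by
            rw [← h1, insert_erase hzB]))
        refine ⟨x, mem_of_mem_erase hx, y, mem_insert_of_mem hy, fun h1 => hyB ?_, hxy⟩
        exact mem_erase.2 ⟨fun h2 => hzA (h2 ▸ hy), h1⟩
    · exact ⟨z, hzB, a, mem_insert_of_mem ha, haB, GiAux.adj_symm haz⟩
  · have hBA' : B ⊆ A := fun w hw => by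
      rcases mem_insert.1 (hB hw) with h1 | h1
      · exact absurd (h1 ▸ hw) hzB
      · exact h1
    by_cases haB : a ∈ B
    · exact ⟨a, haB, z, mem_insert_self _ _, hzB, haz⟩
    · obtain ⟨x, hx, y, hy, hyB, hxy⟩ := h B hBA' hne (fun h1 => haB (h1 ▸ ha))
      exact ⟨x, hx, y, mem_insert_of_mem hy, hyB, hxy⟩

theorem conn_union {src dst : E → V} {A : Finset V} (h : Conn src dst A) (Z : Finset V)
    (hZ : ∀ z ∈ Z, ∃ a ∈ A, Adj src dst a z) : Conn src dst (A ∪ Z) := by
  classical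
  induction Z using Finset.induction_on with
  | empty => rwa [union_empty]
  | insert z Z hz ih =>
    rw [union_insert]
    obtain ⟨a, ha, haz⟩ := hZ z (mem_insert_self _ _)
    exact conn_insert (ih fun w hw => hZ w (mem_insert_of_mem hw)) (mem_union_left _ ha) haz

theorem ctr_eq {u v a b : V} (h : ctr u v a = ctr u v b) (hab : a ≠ b) :
    (a = u ∧ b = v) ∨ (a = v ∧ b = u) := by
  unfold ctr at h
  split_ifs at h with h1 h2 h2
  · exact absurd (h1.trans h2.symm) hab
  · exact Or.inr ⟨h1, h.symm⟩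
  · exact Or.inl ⟨h, h2⟩
  · exact absurd h hab

/-- the preimage of a connected set -/
theorem conn_pre {src dst : E → V} {u v : V} (huv : Adj src dst u v) {A : Finset V}
    (h : Conn (ctr u v ∘ src) (ctr u v ∘ dst) A) (hv : v ∉ A) :
    Conn src dst (univ.filter fun z => ctr u v z ∈ A) := by
  intro B hB hne hBA
  have hB' : ∀ z ∈ B, ctr u v z ∈ A := fun z hz => (mem_filter.1 (hB hz)).2
  have hAd : ∀ a b, ctr u v a = ctr u v b → a ≠ b → Adj src dst a b := by
    intro a b h1 h2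
    rcases ctr_eq h1 h2 with ⟨rfl, rfl⟩ | ⟨rfl, rfl⟩
    · exact huv
    · exact GiAux.adj_symm huv
  by_cases hI : B.image (ctr u v) = A
  · obtain ⟨z, hz, hzB⟩ : ∃ z ∈ univ.filter (fun z => ctr u v z ∈ A), z ∉ B := by
      by_contra hh
      push Not at hh
      exact hBA (Subset.antisymm hB hh)
    have h1 : ctr u v z ∈ B.image (ctr u v) := by
      rw [hI]; exact (mem_filter.1 hz).2
    obtain ⟨z0, hz0, he⟩ := mem_image.1 h1
    exact ⟨z0, hz0, z, hz, hzB, hAd z0 z he fun h2 => hzB (h2 ▸ hz0)⟩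
  · obtain ⟨x', hx', y', hy', hyB', hxy⟩ := h (B.image (ctr u v)) (fun w hw => by
        obtain ⟨z, hz, rfl⟩ := mem_image.1 hw
        exact hB' z hz) (hne.image _) hI
    obtain ⟨-, x, y, hx, hy, hadj⟩ := adj_ctr_iff.1 hxy
    have hyA : y ∈ univ.filter (fun z => ctr u v z ∈ A) :=
      mem_filter.2 ⟨mem_univ _, by rw [hy]; exact hy'⟩
    have hxA : x ∈ univ.filter (fun z => ctr u v z ∈ A) := by
      refine mem_filter.2 ⟨mem_univ _, ?_⟩
      obtain ⟨z, hz, h2⟩ := mem_image.1 hx'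
      rw [hx, ← h2]
      exact hB' z hz
    have hyB : y ∉ B := fun h1 => hyB' (mem_image.2 ⟨y, h1, hy⟩)
    by_cases hxB : x ∈ B
    · exact ⟨x, hxB, y, hyA, hyB, hadj⟩
    · obtain ⟨x0, hx0, he⟩ := mem_image.1 hx'
      refine ⟨x0, hx0, x, hxA, hxB, hAd x0 x (he.trans hx.symm) fun h2 => hxB (h2 ▸ hx0)⟩

theorem ccL : CC (V := V) (E := E) ClL := by
  classical
  intro src dst e h hne A hA
  have huv : Adj src dst (src e) (dst e) := ⟨hne, e, Or.inl ⟨rfl, rfl⟩⟩
  set u := src e with hu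
  set v := dst e with hv
  have hnbv : ∀ w ∈ nb (ctr u v ∘ src) (ctr u v ∘ dst) A, w ≠ v := by
    rintro w hw rfl
    obtain ⟨_, _, a, _, h2⟩ := mem_nb.1 hw
    exact not_adj_v hne (GiAux.adj_symm h2)
  by_cases hvA : v ∈ A
  · have h1 : nb (ctr u v ∘ src) (ctr u v ∘ dst) A = ∅ := by
      rw [eq_empty_iff_forall_notMem]
      intro w hw
      obtain ⟨h1, _, a, ha, h2⟩ := mem_nb.1 hw
      by_cases h3 : A = {v}
      · rw [h3, mem_singleton] at ha
        rw [ha] at h2
        exact not_adj_v hne h2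
      · obtain ⟨x, hx, y, hy, _, hxy⟩ := hA {v} (singleton_subset_iff.2 hvA)
          (singleton_nonempty _) (fun h => h3 h.symm)
        rw [mem_singleton] at hx
        rw [hx] at hxy
        exact not_adj_v hne hxy
    rw [h1]; simp
  have hpre := conn_pre huv hA hvA
  have hlow : ∀ w, w ≠ u → dg (ctr u v ∘ src) (ctr u v ∘ dst) w ≤ dg src dst w := fun w hw =>
    Ord.dg_ctr_other src dst hw
  -- neighbours different from `u` lift
  have hlift : ∀ w, w ≠ u → w ∈ nb (ctr u v ∘ src) (ctr u v ∘ dst) A →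
      w ∈ nb src dst (univ.filter fun z => ctr u v z ∈ A) := by
    intro w hwu hw
    have hwv := hnbv w hw
    obtain ⟨h1, h2, a, ha, h3⟩ := mem_nb.1 hw
    obtain ⟨-, x, y, hx, hy, hadj⟩ := adj_ctr_iff.1 h3
    rw [eq_of_ctr hy hwu] at hadj
    refine mem_nb.2 ⟨fun h4 => h1 ?_, h2.trans (hlow w hwu), x, mem_filter.2 ⟨mem_univ _, ?_⟩, hadj⟩
    · have := (mem_filter.1 h4).2
      rwa [ctr_of_ne hwv] at this
    · rw [hx]; exact ha
  by_cases huN : u ∈ nb (ctr u v ∘ src) (ctr u v ∘ dst) A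
  swap
  · refine (card_le_card fun w hw => hlift w (fun h1 => huN ?_) hw).trans (h _ hpre)
    rw [h1] at hw
    exact hw
  obtain ⟨huA, hd, a, ha, hau⟩ := mem_nb.1 huN
  have hpreA : ∀ z, ctr u v z ∈ A ↔ z ∈ A := by
    intro z
    by_cases hz : z = v
    · rw [hz, ctr_v]
      exact iff_of_false huA hvA
    · rw [ctr_of_ne hz]
  have hpreE : (univ.filter fun z => ctr u v z ∈ A) = A := by
    ext z
    rw [mem_filter, hpreA]
    exact ⟨fun h => h.2, fun h => ⟨mem_univ _, h⟩⟩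
  rw [hpreE] at hpre hlift
  have hau2 : a ≠ u := fun h1 => huA (h1 ▸ ha)
  have hav2 : a ≠ v := fun h1 => hvA (h1 ▸ ha)
  have hor : Adj src dst u a ∨ Adj src dst v a := (adj_on hne hau2 hav2).1 (GiAux.adj_symm hau)
  have hdeg : dg (ctr u v ∘ src) (ctr u v ∘ dst) u + 2 ≤ dg src dst u + dg src dst v :=
    Ord.dg_ctr_u src dst e hne
  -- the set of the other neighbours and one of `u`, `v`
  have fin : ∀ z, (z = u ∨ z = v) → ∀ A1, Conn src dst A1 →
      ((nb (ctr u v ∘ src) (ctr u v ∘ dst) A).erase u ⊆ nb src dst A1) → z ∈ nb src dst A1 →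
      (nb (ctr u v ∘ src) (ctr u v ∘ dst) A).card ≤ 63 := by
    intro z hz A1 hA1 hsub hzn
    have h1 : z ∉ (nb (ctr u v ∘ src) (ctr u v ∘ dst) A).erase u := by
      intro h2
      rcases hz with rfl | rfl
      · exact (mem_erase.1 h2).1 rfl
      · exact hnbv _ (mem_of_mem_erase h2) rfl
    have h2 := card_le_card (insert_subset hzn hsub)
    rw [card_insert_of_notMem h1, card_erase_of_mem huN] at h2
    have h3 : 0 < (nb (ctr u v ∘ src) (ctr u v ∘ dst) A).card := card_pos.2 ⟨u, huN⟩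
    have h4 := h A1 hA1
    omega
  have hers : (nb (ctr u v ∘ src) (ctr u v ∘ dst) A).erase u ⊆ nb src dst A :=
    fun w hw => hlift w (mem_erase.1 hw).1 (mem_of_mem_erase hw)
  by_cases hz : ∃ z, (z = u ∨ z = v) ∧ 3 ≤ dg src dst z ∧ ∃ a ∈ A, Adj src dst a z
  · obtain ⟨z, hz1, hz2, hz3⟩ := hz
    refine fin z hz1 A hpre hers (mem_nb.2 ⟨?_, hz2, hz3⟩)
    rcases hz1 with rfl | rfl
    · exact huA
    · exact hvA
  · push Not at hz
    obtain ⟨z, z', hz1, hz1', hzz, hza, hz3⟩ : ∃ z z', (z = u ∨ z = v) ∧ (z' = u ∨ z' = v) ∧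
        Adj src dst z z' ∧ Adj src dst a z ∧ 3 ≤ dg src dst z' := by
      rcases hor with h1 | h1
      · have h2 : ¬ 3 ≤ dg src dst u := fun h2 => hz u (Or.inl rfl) h2 a ha (GiAux.adj_symm h1)
        exact ⟨u, v, Or.inl rfl, Or.inr rfl, huv, GiAux.adj_symm h1, by omega⟩
      · have h2 : ¬ 3 ≤ dg src dst v := fun h2 => hz v (Or.inr rfl) h2 a ha (GiAux.adj_symm h1)
        exact ⟨v, u, Or.inr rfl, Or.inl rfl, GiAux.adj_symm huv, GiAux.adj_symm h1, by omega⟩
    have hz'A : z' ∉ A := by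
      rcases hz1' with rfl | rfl
      · exact huA
      · exact hvA
    refine fin z' hz1' (insert z A) (conn_insert hpre ha hza) ?_ ?_
    · intro w hw
      have hwu := (mem_erase.1 hw).1
      have hwv := hnbv w (mem_of_mem_erase hw)
      obtain ⟨h1, h2, b, hb, h3⟩ := mem_nb.1 (hers hw)
      refine mem_nb.2 ⟨?_, h2, b, mem_insert_of_mem hb, h3⟩
      rw [mem_insert, not_or]
      refine ⟨?_, h1⟩
      rcases hz1 with rfl | rfl
      · exact hwu
      · exact hwv
    · refine mem_nb.2 ⟨?_, hz3, z, mem_insert_self _ _, hzz⟩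
      rw [mem_insert, not_or]
      exact ⟨hzz.1.symm, hz'A⟩

end

section tree

variable {V : Type} [Fintype V] [DecidableEq V] {G : SimpleGraph V} (N : Nx G)

theorem cur_adj : ∀ (l : List Bool) (b : Bool) {p w : V} (_ : G.Adj p w),
    G.Adj (cur N p w l) (cur N p w (l ++ [b]))
  | [], b, p, w, h => N.adj b h
  | c :: l, b, p, w, h => cur_adj l b (N.adj c h)

/-- the vertices at distance at most `n` from `x y` in the tree -/
def Tn (x y : V) (n : ℕ) : Finset V :=
  (Ls n).image (cur N y x) ∪ (Ls n).image (cur N x y)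

theorem mem_Tn {x y : V} {n : ℕ} {v : V} : v ∈ Tn N x y n ↔
    (∃ l : List Bool, l.length ≤ n ∧ v = cur N y x l) ∨
      ∃ l : List Bool, l.length ≤ n ∧ v = cur N x y l := by
  unfold Tn
  rw [mem_union, mem_image, mem_image]
  constructor
  · rintro (⟨l, h1, h2⟩ | ⟨l, h1, h2⟩)
    · exact Or.inl ⟨l, (mem_Ls n l).1 h1, h2.symm⟩
    · exact Or.inr ⟨l, (mem_Ls n l).1 h1, h2.symm⟩
  · rintro (⟨l, h1, h2⟩ | ⟨l, h1, h2⟩)
    · exact Or.inl ⟨l, (mem_Ls n l).2 h1, h2.symm⟩
    · exact Or.inr ⟨l, (mem_Ls n l).2 h1, h2.symm⟩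

theorem Tn_step {x y : V} (hxy : G.Adj x y) {n : ℕ} {v : V} (hv : v ∈ Tn N x y (n + 1)) :
    v ∈ Tn N x y n ∨ ∃ a ∈ Tn N x y n, G.Adj a v := by
  have key : ∀ {p w : V}, G.Adj p w → ∀ l : List Bool, l.length ≤ n + 1 → l.length ≤ n ∨
      ∃ l' : List Bool, l'.length ≤ n ∧ G.Adj (cur N p w l') (cur N p w l) := by
    intro p w hpw l hl
    by_cases h1 : l.length ≤ n
    · exact Or.inl h1
    · have h2 : l ≠ [] := by rintro rfl; simp at h1
      obtain ⟨l', b, rfl⟩ : ∃ l' b, l = l' ++ [b] := ⟨_, _, (List.dropLast_append_getLast h2).symm⟩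
      refine Or.inr ⟨l', ?_, cur_adj N l' b hpw⟩
      rw [List.length_append, List.length_singleton] at hl
      omega
  rcases (mem_Tn N).1 hv with ⟨l, hl, rfl⟩ | ⟨l, hl, rfl⟩
  · rcases key hxy.symm l hl with h | ⟨l', h1, h2⟩
    · exact Or.inl ((mem_Tn N).2 (Or.inl ⟨l, h, rfl⟩))
    · exact Or.inr ⟨_, (mem_Tn N).2 (Or.inl ⟨l', h1, rfl⟩), h2⟩
  · rcases key hxy l hl with h | ⟨l', h1, h2⟩
    · exact Or.inl ((mem_Tn N).2 (Or.inr ⟨l, h, rfl⟩))
    · exact Or.inr ⟨_, (mem_Tn N).2 (Or.inr ⟨l', h1, rfl⟩), h2⟩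

theorem Tn_mono (x y : V) (n : ℕ) : Tn N x y n ⊆ Tn N x y (n + 1) := by
  intro v hv
  rcases (mem_Tn N).1 hv with ⟨l, hl, rfl⟩ | ⟨l, hl, rfl⟩
  · exact (mem_Tn N).2 (Or.inl ⟨l, by omega, rfl⟩)
  · exact (mem_Tn N).2 (Or.inr ⟨l, by omega, rfl⟩)

theorem card_Ls4 : (Ls 4).card = 31 := by decide +kernel

end tree

section

variable {V E : Type} [Fintype V] [DecidableEq V] [Fintype E] [DecidableEq E]

/-- **Main step.** -/
theorem flow_of_ClL (hc : St_contract) (src dst : E → V) (hcl : ClL src dst)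
    (hbr : Br src dst ∅ ∅) : FlowOn src dst ∅ ∅ := by
  classical
  by_contra hn
  obtain ⟨s, d, hMa, hM⟩ := exists_minC ccL src dst hcl hbr hn
  have h3 := threeC hc hM
  have hgi := girthC hc hM
  by_cases hl : ∀ e, s e = d e
  · exact hM.nf (flow_of_loops hl)
  push Not at hl
  obtain ⟨e, he⟩ := hl
  let G : SimpleGraph V :=
    { Adj := Adj s d
      symm := ⟨fun a b h => GiAux.adj_symm h⟩
      loopless := ⟨fun a h => h.1 rfl⟩ }
  have hG : ∀ a b, G.Adj a b ↔ Adj s d a b := fun a b => Iff.rfl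
  have h12 : ∀ (w : V) (c : G.Walk w w), c.IsCycle → 12 ≤ c.length :=
    fun w c hc => Ord.cycle_len hgi G hG c hc
  have hxy : G.Adj (s e) (d e) := ⟨he, e, Or.inl ⟨rfl, rfl⟩⟩
  obtain ⟨N⟩ := exists_nx (G := G) (fun x y h => h3 x y h)
  have hconn : ∀ n, Conn s d (Tn N (s e) (d e) n) := by
    intro n
    induction n with
    | zero =>
      have h1 : Conn s d {s e} := by
        intro B hB hne hBA
        exfalso
        apply hBA
        exact Subset.antisymm hB (singleton_subset_iff.2 (by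
          obtain ⟨b, hb⟩ := hne
          have := mem_singleton.1 (hB hb)
          rwa [this] at hb))
      have h2 := conn_insert h1 (mem_singleton_self _) hxy
      have h4 : Tn N (s e) (d e) 0 = insert (d e) {s e} := by
        ext v
        rw [mem_Tn, mem_insert, mem_singleton]
        constructor
        · rintro (⟨l, hl, rfl⟩ | ⟨l, hl, rfl⟩)
          · have : l = [] := List.eq_nil_of_length_eq_zero (by omega)
            subst this
            exact Or.inr rfl
          · have : l = [] := List.eq_nil_of_length_eq_zero (by omega)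
            subst this
            exact Or.inl rfl
        · rintro (rfl | rfl)
          · exact Or.inr ⟨[], le_rfl, rfl⟩
          · exact Or.inl ⟨[], le_rfl, rfl⟩
      rw [h4]
      exact h2
    | succ n ih =>
      have h1 := conn_union ih (Tn N (s e) (d e) (n + 1) \ Tn N (s e) (d e) n) (fun z hz => by
        obtain ⟨h4, h5⟩ := mem_sdiff.1 hz
        obtain ⟨a, ha, haz⟩ := (Tn_step N hxy h4).resolve_left h5
        exact ⟨a, ha, haz⟩)
      rwa [union_sdiff_of_subset (Tn_mono N _ _ n)] at h1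
  have hX := card_X N h12 hxy
  have hsub : X N (s e) (d e) \ Tn N (s e) (d e) 4 ⊆ nb s d (Tn N (s e) (d e) 4) := by
    intro v hv
    obtain ⟨h1, h2⟩ := mem_sdiff.1 hv
    have h4 : v ∈ Tn N (s e) (d e) 5 := (mem_Tn N).2 ((mem_X N).1 h1)
    obtain ⟨a, ha, hav⟩ := (Tn_step N hxy h4).resolve_left h2
    exact mem_nb.2 ⟨h2, Ord.three_dg h3 (GiAux.adj_symm hav), a, ha, hav⟩
  have h4 : (Tn N (s e) (d e) 4).card ≤ 62 := by
    unfold Tn
    refine (card_union_le _ _).trans ?_
    have h5 : ((Ls 4).image (cur N (d e) (s e))).card ≤ 31 := card_Ls4 ▸ card_image_le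
    have h6 : ((Ls 4).image (cur N (s e) (d e))).card ≤ 31 := card_Ls4 ▸ card_image_le
    omega
  have h5 := card_le_card hsub
  have h6 := hMa _ (hconn 4)
  have h7 := le_card_sdiff (Tn N (s e) (d e) 4) (X N (s e) (d e))
  omega

end

end Pool.Agent.X65.FT
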