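import Pool.Agent.X65.FT.Leaf

/-! Graphs without large induced subcubic bipartite subgraphs of girth at least twelve. -/

set_option autoImplicit false
set_option linter.unusedSectionVars false

namespace Pool.Agent.X65.FT

open Finset Pool.Agent.TH676.Z Pool.Agent.Y335.FL Pool.Agent.Y358.IN

section

variable {V E : Type} [Fintype V] [DecidableEq V] [Fintype E] [DecidableEq E]

/-- lifting sets of vertices of degree at least three from a contraction -/
theorem lift_set {src dst : E → V} (e : E) (hne : src e ≠ dst e) (B' : Finset V)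
    (hB' : ∀ x ∈ B', 3 ≤ dg (ctr (src e) (dst e) ∘ src) (ctr (src e) (dst e) ∘ dst) x) :
    ∃ B : Finset V, B.card = B'.card ∧ (∀ x ∈ B, 3 ≤ dg src dst x) ∧
      (∀ x ∈ B, ctr (src e) (dst e) x ∈ B') ∧
      (∀ x ∈ B, ∀ y ∈ B, ctr (src e) (dst e) x = ctr (src e) (dst e) y → x = y) := by
  set u := src e with hu
  set v := dst e with hv
  have hvB : v ∉ B' := by
    intro h
    have := hB' v h
    rw [Ord.dg_ctr_v src dst hne] at this
    omega
  have hc : ∀ x ∈ B', ctr u v x = x := fun x hx => ctr_of_ne (fun h => hvB (h ▸ hx))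
  have hlow : ∀ w, w ≠ u → dg (ctr u v ∘ src) (ctr u v ∘ dst) w ≤ dg src dst w := fun w hw =>
    Ord.dg_ctr_other src dst hw
  by_cases huB : u ∈ B'
  · have hdeg : dg (ctr u v ∘ src) (ctr u v ∘ dst) u + 2 ≤ dg src dst u + dg src dst v :=
      Ord.dg_ctr_u src dst e hne
    have h3 := hB' u huB
    obtain ⟨z, hz, hzd⟩ : ∃ z, (z = u ∨ z = v) ∧ 3 ≤ dg src dst z := by
      by_cases h4 : 3 ≤ dg src dst u
      · exact ⟨u, Or.inl rfl, h4⟩
      · exact ⟨v, Or.inr rfl, by omega⟩
    have hcz : ctr u v z = u := by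
      rcases hz with rfl | rfl
      · exact ctr_u _ _ hne
      · exact ctr_v _ _
    have hzB : z ∉ B'.erase u := by
      rcases hz with h | h
      · rw [h]; exact fun h1 => (mem_erase.1 h1).1 rfl
      · rw [h]; exact fun h1 => hvB (mem_of_mem_erase h1)
    refine ⟨insert z (B'.erase u), ?_, ?_, ?_, ?_⟩
    · rw [card_insert_of_notMem hzB, card_erase_of_mem huB]
      have := card_pos.2 ⟨u, huB⟩
      omega
    · intro x hx
      rcases mem_insert.1 hx with rfl | hx
      · exact hzd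
      · exact (hB' x (mem_of_mem_erase hx)).trans (hlow x (mem_erase.1 hx).1)
    · intro x hx
      rcases mem_insert.1 hx with rfl | hx
      · rw [hcz]; exact huB
      · rw [hc x (mem_of_mem_erase hx)]; exact mem_of_mem_erase hx
    · intro x hx y hy hxy
      rcases mem_insert.1 hx with hx | hx <;> rcases mem_insert.1 hy with hy | hy
      · rw [hx, hy]
      · rw [hx, hcz, hc y (mem_of_mem_erase hy)] at hxy
        exact absurd hxy.symm (mem_erase.1 hy).1
      · rw [hy, hcz, hc x (mem_of_mem_erase hx)] at hxy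
        exact absurd hxy (mem_erase.1 hx).1
      · rwa [hc x (mem_of_mem_erase hx), hc y (mem_of_mem_erase hy)] at hxy
  · refine ⟨B', rfl, ?_, ?_, ?_⟩
    · intro x hx
      exact (hB' x hx).trans (hlow x fun h => huB (h ▸ hx))
    · intro x hx
      rw [hc x hx]; exact hx
    · intro x hx y hy hxy
      rwa [hc x hx, hc y hy] at hxy

/-- the vertices in `B` have degree at least three and induce a bipartite subcubic graph of girth
at least twelve -/
structure Sp (src dst : E → V) (B : Finset V) : Prop where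
  deg : ∀ x ∈ B, 3 ≤ dg src dst x
  bip : ∃ P : Finset V, ∀ x ∈ B, ∀ y ∈ B, (x ∈ P ↔ y ∈ P) → ¬ Adj src dst x y
  sub : ∀ x ∈ B, ∀ Y ⊆ B, (∀ y ∈ Y, Adj src dst x y) → Y.card ≤ 3
  girth : ∀ (n : ℕ) (c : ℕ → V), 3 ≤ n → n ≤ 11 → (∀ i, i < n → c i ∈ B) →
    (∀ i j, i < j → j < n → c i ≠ c j) → (∀ i, i + 1 < n → Adj src dst (c i) (c (i + 1))) →
    ¬ Adj src dst (c (n - 1)) (c 0)

/-- the class -/
def ClS (src dst : E → V) : Prop := ∀ B, Sp src dst B → B.card ≤ 125

theorem ccS : CC (V := V) (E := E) ClS := by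
  classical
  intro src dst e h hne B' hB'
  obtain ⟨B, hc, hd, hm, hi⟩ := lift_set e hne B' hB'.deg
  rw [← hc]
  have hadj : ∀ x ∈ B, ∀ y ∈ B, Adj src dst x y →
      Adj (ctr (src e) (dst e) ∘ src) (ctr (src e) (dst e) ∘ dst)
        (ctr (src e) (dst e) x) (ctr (src e) (dst e) y) := by
    intro x hx y hy hxy
    exact adj_ctr hxy fun h1 => hxy.1 (hi x hx y hy h1)
  refine h B ⟨hd, ?_, ?_, ?_⟩
  · obtain ⟨P, hP⟩ := hB'.bip
    refine ⟨B.filter fun x => ctr (src e) (dst e) x ∈ P, ?_⟩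
    intro x hx y hy hxy hA
    rw [mem_filter, mem_filter] at hxy
    refine hP _ (hm x hx) _ (hm y hy) ?_ (hadj x hx y hy hA)
    exact ⟨fun h1 => (hxy.1 ⟨hx, h1⟩).2, fun h1 => (hxy.2 ⟨hy, h1⟩).2⟩
  · intro x hx Y hY hA
    have h1 := hB'.sub _ (hm x hx) (Y.image (ctr (src e) (dst e))) (fun w hw => by
      obtain ⟨z, hz, rfl⟩ := mem_image.1 hw
      exact hm z (hY hz)) (fun w hw => by
      obtain ⟨z, hz, rfl⟩ := mem_image.1 hw
      exact hadj x hx z (hY hz) (hA z hz))
    rwa [card_image_of_injOn (fun a ha b hb hab => hi a (hY ha) b (hY hb) hab)] at h1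
  · intro n c h3 hn hcB hinj hA hl
    refine hB'.girth n (fun i => ctr (src e) (dst e) (c i)) h3 hn (fun i hi' => hm _ (hcB i hi'))
      (fun i j hij hj h1 => hinj i j hij hj (hi _ (hcB i (by omega)) _ (hcB j hj) h1))
      (fun i hi' => hadj _ (hcB _ (by omega)) _ (hcB _ hi') (hA i hi')) ?_
    exact hadj _ (hcB _ (by omega)) _ (hcB _ (by omega)) hl

end

section tree

variable {V : Type} [Fintype V] [DecidableEq V] {G : SimpleGraph V} (N : Nx G)
variable (h12 : ∀ (w : V) (c : G.Walk w w), c.IsCycle → 12 ≤ c.length)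
include h12

/-- adjacent vertices on one side of the tree -/
theorem par_same {p w : V} (h : G.Adj p w) {l l' : List Bool} (hl : l.length ≤ 5)
    (hl' : l'.length ≤ 5) (ha : G.Adj (cur N p w l) (cur N p w l')) :
    (l.length + l'.length) % 2 = 1 := by
  have key : ∀ (m1 : List Bool) (c : Bool) (l : List Bool), (m1 ++ [c]).length ≤ 5 →
      l.length ≤ 5 → G.Adj (cur N p w (m1 ++ [c])) (cur N p w l) →
      ((m1 ++ [c]).length + l.length) % 2 = 1 := by
    intro m1 c l hm hl ha
    have hm' : m1.length ≤ 4 := by simp at hm; omega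
    rcases nb_same N h12 h m1 c hm' hl ha with h1 | ⟨h1, c', h2⟩
    · have := cur_inj N h12 l m1 h (by omega) (by omega) (by omega) h1
      rw [this]; simp; omega
    · have := cur_inj N h12 l ((m1 ++ [c]) ++ [c']) h (by omega) (by simp; omega)
        (by simp; omega) h2
      rw [this]; simp; omega
  rcases List.eq_nil_or_concat l with h0 | ⟨m1, c, h0⟩
  · rcases List.eq_nil_or_concat l' with h0' | ⟨m1, c, h0'⟩
    · rw [h0, h0'] at ha
      exact absurd rfl ha.ne
    · rw [List.concat_eq_append] at h0'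
      rw [h0'] at ha hl' ⊢
      have := key m1 c l hl' hl ha.symm
      omega
  · rw [List.concat_eq_append] at h0
    rw [h0] at ha hl ⊢
    exact key m1 c l' hl hl' ha

/-- adjacent vertices on different sides of the tree -/
theorem par_opp {p w : V} (h : G.Adj p w) {l l' : List Bool} (hl : l.length ≤ 5)
    (hl' : l'.length ≤ 5) (ha : G.Adj (cur N p w l) (cur N w p l')) :
    (l.length + l'.length) % 2 = 0 := by
  by_cases h0 : l = []
  · by_cases h0' : l' = []
    · rw [h0, h0']; rfl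
    · have := (nb_opp N h12 h.symm l' h0' hl' hl ha.symm).2
      rw [h0] at this
      simp at this
  · obtain ⟨h1, h2⟩ := nb_opp N h12 h l h0 hl hl' ha
    omega

/-- one of the two classes of the tree -/
def PX (x y : V) : Finset V :=
  ((Ls 5).filter fun l => l.length % 2 = 0).image (cur N y x) ∪
    ((Ls 5).filter fun l => l.length % 2 = 1).image (cur N x y)

omit h12 in
theorem mem_PX {x y v : V} : v ∈ PX N x y ↔
    (∃ l : List Bool, l.length ≤ 5 ∧ l.length % 2 = 0 ∧ v = cur N y x l) ∨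
    ∃ l : List Bool, l.length ≤ 5 ∧ l.length % 2 = 1 ∧ v = cur N x y l := by
  unfold PX
  rw [mem_union, mem_image, mem_image]
  constructor
  · rintro (⟨l, h1, h2⟩ | ⟨l, h1, h2⟩)
    · obtain ⟨h3, h4⟩ := mem_filter.1 h1
      exact Or.inl ⟨l, (mem_Ls 5 l).1 h3, h4, h2.symm⟩
    · obtain ⟨h3, h4⟩ := mem_filter.1 h1
      exact Or.inr ⟨l, (mem_Ls 5 l).1 h3, h4, h2.symm⟩
  · rintro (⟨l, h1, h2, h3⟩ | ⟨l, h1, h2, h3⟩)
    · exact Or.inl ⟨l, mem_filter.2 ⟨(mem_Ls 5 l).2 h1, h2⟩, h3.symm⟩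
    · exact Or.inr ⟨l, mem_filter.2 ⟨(mem_Ls 5 l).2 h1, h2⟩, h3.symm⟩

theorem PX_indep {x y a b : V} (h : G.Adj x y) (ha : a ∈ PX N x y) (hb : b ∈ PX N x y) :
    ¬ G.Adj a b := by
  intro hab
  rcases (mem_PX N).1 ha with ⟨l, h1, h2, rfl⟩ | ⟨l, h1, h2, rfl⟩ <;>
    rcases (mem_PX N).1 hb with ⟨l', h1', h2', rfl⟩ | ⟨l', h1', h2', rfl⟩
  · have := par_same N h12 h.symm h1 h1' hab
    omega
  · have := par_opp N h12 h.symm h1 h1' hab
    omega
  · have := par_opp N h12 h h1 h1' hab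
    omega
  · have := par_same N h12 h h1 h1' hab
    omega

omit h12 in
theorem PX_cover {x y v : V} (hv : v ∈ X N x y) (hn : v ∉ PX N x y) : v ∈ PX N y x := by
  rw [mem_PX] at hn ⊢
  push Not at hn
  rcases (mem_X N).1 hv with ⟨l, hl, rfl⟩ | ⟨l, hl, rfl⟩
  · right
    refine ⟨l, hl, ?_, rfl⟩
    have := hn.1 l hl
    by_contra h1
    exact this (by omega) rfl
  · left
    refine ⟨l, hl, ?_, rfl⟩
    have := hn.2 l hl
    by_contra h1
    exact this (by omega) rfl

end tree

section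

variable {V E : Type} [Fintype V] [DecidableEq V] [Fintype E] [DecidableEq E]

/-- **Main step.** -/
theorem flow_of_ClS (hc : St_contract) (src dst : E → V) (hcl : ClS src dst)
    (hbr : Br src dst ∅ ∅) : FlowOn src dst ∅ ∅ := by
  classical
  by_contra hn
  obtain ⟨s, d, hMa, hM⟩ := exists_minC ccS src dst hcl hbr hn
  have h3 := threeC hc hM
  have hgi := girthC hc hM
  by_cases hl : ∀ e, s e = d e
  · exact hM.nf (flow_of_loops hl)
  push Not at hl
  obtain ⟨e, he⟩ := hl
  let G : SimpleGraph V :=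
    { Adj := Adj s d
      symm := ⟨fun a b h => GiAux.adj_symm h⟩
      loopless := ⟨fun a h => h.1 rfl⟩ }
  have hG : ∀ a b, G.Adj a b ↔ Adj s d a b := fun a b => Iff.rfl
  have h12 : ∀ (w : V) (c : G.Walk w w), c.IsCycle → 12 ≤ c.length :=
    fun w c hc => Ord.cycle_len hgi G hG c hc
  have hxy : G.Adj (s e) (d e) := ⟨he, e, Or.inl ⟨rfl, rfl⟩⟩
  obtain ⟨N⟩ := exists_nx (G := G) (fun x y h => h3 x y h)
  have hX := card_X N h12 hxy
  have h4 := hMa (X N (s e) (d e)) ⟨?_, ⟨PX N (s e) (d e), ?_⟩, ?_, ?_⟩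
  · omega
  · intro v hv
    have h5 : ∃ z, G.Adj v z := by
      rcases (mem_X N).1 hv with ⟨l, hl, rfl⟩ | ⟨l, hl, rfl⟩
      · obtain ⟨P, _⟩ := wk N h12 l hxy.symm (by omega)
        exact Ord.nbr hxy P
      · obtain ⟨P, _⟩ := wk N h12 l hxy (by omega)
        exact Ord.nbr hxy.symm P
    obtain ⟨z, hz⟩ := h5
    exact Ord.three_dg h3 hz
  · intro a ha b hb hab
    by_cases h5 : a ∈ PX N (s e) (d e)
    · exact PX_indep N h12 hxy h5 (hab.1 h5)
    · have h6 := PX_cover N ha h5
      have h7 := PX_cover N hb (fun h => h5 (hab.2 h))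
      exact PX_indep N h12 hxy.symm h6 h7
  · intro z hz Y hY hA
    refine (card_le_card fun v hv => ?_).trans (card_A_in N h12 hxy hz)
    exact (mem_A N).2 ⟨hY hv, hA v hv⟩
  · intro n c h5 h6 _ hinj hA hl
    have := closed_len hgi h5 c hinj hA hl
    omega

end

end Pool.Agent.X65.FT
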