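import Pool.Agent.X65.FT.Tree

/-! The number of neighbours of a vertex in the binary tree around an edge. -/

set_option autoImplicit false
set_option linter.unusedSectionVars false

namespace Pool.Agent.X65.FT

open Finset Pool.Agent.TH676.Z Pool.Agent.Y335.FL

/-- the lists with at most `n` entries -/
def Ls : ℕ → Finset (List Bool)
  | 0 => {[]}
  | n + 1 => insert [] (((univ : Finset Bool) ×ˢ Ls n).image fun q => q.1 :: q.2)

theorem mem_Ls : ∀ (n : ℕ) (l : List Bool), l ∈ Ls n ↔ l.length ≤ n
  | 0, l => by
    unfold Ls
    rw [mem_singleton]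
    constructor
    · rintro rfl; simp
    · intro h
      exact List.length_eq_zero_iff.1 (by omega)
  | n + 1, l => by
    unfold Ls
    rw [mem_insert, mem_image]
    constructor
    · rintro (rfl | ⟨⟨b, l1⟩, h, rfl⟩)
      · simp
      · have h1 : l1.length ≤ n := (mem_Ls n l1).1 (mem_product.1 h).2
        simpa using h1
    · intro h
      cases l with
      | nil => exact Or.inl rfl
      | cons b l =>
        refine Or.inr ⟨(b, l), mem_product.2 ⟨mem_univ _, (mem_Ls n l).2 ?_⟩, rfl⟩
        simp only [List.length_cons] at h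
        omega

theorem card_Ls : (Ls 5).card = 63 := by decide +kernel

variable {V : Type} [Fintype V] [DecidableEq V] {G : SimpleGraph V} (N : Nx G)

/-- one half of the tree -/
def side (p w : V) : Finset V := (Ls 5).image (cur N p w)

theorem mem_side {p w v : V} : v ∈ side N p w ↔ ∃ l : List Bool, l.length ≤ 5 ∧ v = cur N p w l := by
  unfold side
  rw [mem_image]
  constructor
  · rintro ⟨l, h1, h2⟩
    exact ⟨l, (mem_Ls 5 l).1 h1, h2.symm⟩
  · rintro ⟨l, h1, h2⟩
    exact ⟨l, (mem_Ls 5 l).2 h1, h2.symm⟩

variable (h12 : ∀ (w : V) (c : G.Walk w w), c.IsCycle → 12 ≤ c.length)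
include h12

theorem side_disj {p w v : V} (h : G.Adj p w) (h1 : v ∈ side N p w) (h2 : v ∈ side N w p) :
    False := by
  obtain ⟨l, hl, rfl⟩ := (mem_side N).1 h1
  obtain ⟨l', hl', he⟩ := (mem_side N).1 h2
  obtain ⟨P, p1, p2, p3, p4⟩ := wk N h12 l h (by omega)
  obtain ⟨Q, q1, q2, q3, q4⟩ := wk N h12 l' h.symm (by omega)
  have hQ : (SimpleGraph.Walk.cons h.symm Q).IsPath := by
    rw [SimpleGraph.Walk.cons_isPath_iff, q2]
    exact ⟨q1, q4⟩
  have e := usup h12 P _ p1 hQ he (by
    rw [SimpleGraph.Walk.length_cons]
    omega)
  apply p4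
  rw [← p2, e, SimpleGraph.Walk.support_cons]
  exact List.mem_cons_of_mem _ Q.start_mem_support

theorem card_side {p w : V} (h : G.Adj p w) : (side N p w).card = 63 := by
  unfold side
  rw [card_image_of_injOn, card_Ls]
  intro l hl l' hl' he
  have h1 := (mem_Ls 5 l).1 hl
  have h2 := (mem_Ls 5 l').1 hl'
  exact cur_inj N h12 l l' h (by omega) (by omega) (by omega) he

/-- the tree -/
def X (x y : V) : Finset V := side N y x ∪ side N x y

omit h12 in
theorem X_symm (x y : V) : X N x y = X N y x := union_comm _ _

theorem card_X {x y : V} (h : G.Adj x y) : (X N x y).card = 126 := by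
  unfold X
  rw [card_union_of_disjoint, card_side N h12 h, card_side N h12 h.symm]
  rw [disjoint_left]
  intro v h1 h2
  exact side_disj N h12 h h2 h1

omit h12 in
theorem mem_X {x y v : V} : v ∈ X N x y ↔
    (∃ l : List Bool, l.length ≤ 5 ∧ v = cur N y x l) ∨
      ∃ l : List Bool, l.length ≤ 5 ∧ v = cur N x y l := by
  unfold X
  rw [mem_union, mem_side, mem_side]

/-- the neighbours of `z` in the tree -/
noncomputable def A (x y z : V) : Finset V := by
  classical
  exact (X N x y).filter fun v => G.Adj z v

omit h12 in
theorem mem_A {x y z v : V} : v ∈ A N x y z ↔ v ∈ X N x y ∧ G.Adj z v := by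
  classical
  unfold A
  rw [mem_filter]

omit h12 in
theorem not_sup {p w z : V} (hz : z ∉ side N p w) (b : Bool) (l : List Bool) (hl : l.length ≤ 4) :
    z ∉ sup N w (N.f p w b) l := by
  intro h
  obtain ⟨l1, h1, h2⟩ := mem_sup N l _ _ _ h
  exact hz ((mem_side N).2 ⟨b :: l1, by simp only [List.length_cons]; omega, h2⟩)

omit h12 in
theorem not_sup' {p w z : V} (hz : z ∉ side N p w) (l : List Bool) (hl : l.length ≤ 5) :
    z ∉ sup N p w l := by
  intro h
  obtain ⟨l1, h1, h2⟩ := mem_sup N l _ _ _ h
  exact hz ((mem_side N).2 ⟨l1, by omega, h2⟩)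

/-- two neighbours of `z` in the same branch -/
theorem branch {p w z : V} (h : G.Adj p w) (hz : z ∉ side N p w) (b : Bool) {l l' : List Bool}
    (hl : l.length ≤ 4) (hl' : l'.length ≤ 4) (ha : G.Adj z (cur N p w (b :: l)))
    (ha' : G.Adj z (cur N p w (b :: l'))) : cur N p w (b :: l) = cur N p w (b :: l') :=
  same_end (l := l) (l' := l') (p := w) (w := N.f p w b) N h12 (N.adj b h) (by omega) ha.symm
    ha'.symm (not_sup N hz b l hl) (not_sup N hz b l' hl')

/-- a root adjacent to `z`: same side -/
theorem root_same {p w z : V} (h : G.Adj p w) (hz : z ∉ side N p w) {l : List Bool}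
    (hl : l.length ≤ 5) (hw : G.Adj z w) (ha : G.Adj z (cur N p w l)) : cur N p w l = w := by
  obtain ⟨P, p1, p2, p3, p4⟩ := wk N h12 l h (by omega)
  have hzP : z ∉ P.support := by rw [p2]; exact not_sup' N hz l hl
  have e := usup h12 _ _ (Ord.edge_path hw.symm) (p1.concat hzP ha.symm) rfl (by
    rw [SimpleGraph.Walk.length_concat]
    simp only [SimpleGraph.Walk.length_cons, SimpleGraph.Walk.length_nil]
    omega)
  have e1 := congrArg List.length e
  rw [SimpleGraph.Walk.length_support, SimpleGraph.Walk.length_support,
    SimpleGraph.Walk.length_concat] at e1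
  simp only [SimpleGraph.Walk.length_cons, SimpleGraph.Walk.length_nil] at e1
  have h0 : l = [] := List.length_eq_zero_iff.1 (by omega)
  rw [h0]
  rfl

/-- a root adjacent to `z`: the opposite side -/
theorem root_opp {p w z : V} (h : G.Adj p w) (hz : z ∉ side N w p) (hzw : z ≠ w) {l : List Bool}
    (hl : l.length ≤ 5) (hw : G.Adj z w) (ha : G.Adj z (cur N w p l)) : False := by
  obtain ⟨Q, q1, q2, q3, q4⟩ := wk N h12 l h.symm (by omega)
  have hzQ : z ∉ Q.support := by rw [q2]; exact not_sup' N hz l hl
  have hw1 : w ∉ (Q.concat ha.symm).support := by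
    rw [SimpleGraph.Walk.support_concat, List.mem_append, q2]
    rintro (h1 | h1)
    · exact q4 h1
    · exact hzw (List.mem_singleton.1 h1).symm
  have hR := (SimpleGraph.Walk.cons_isPath_iff h.symm (Q.concat ha.symm)).2
    ⟨q1.concat hzQ ha.symm, hw1⟩
  have e := usup h12 _ _ (Ord.edge_path hw.symm) hR rfl (by
    simp only [SimpleGraph.Walk.length_cons, SimpleGraph.Walk.length_nil,
      SimpleGraph.Walk.length_concat]
    omega)
  have e1 := congrArg List.length e
  rw [SimpleGraph.Walk.length_support, SimpleGraph.Walk.length_support] at e1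
  simp only [SimpleGraph.Walk.length_cons, SimpleGraph.Walk.length_nil,
    SimpleGraph.Walk.length_concat] at e1
  omega

/-- **A vertex outside the tree has at most four neighbours in the tree.** -/
theorem card_A_out {x y z : V} (h : G.Adj x y) (hz : z ∉ X N x y) : (A N x y z).card ≤ 4 := by
  classical
  rw [X, mem_union, not_or] at hz
  obtain ⟨hz1, hz2⟩ := hz
  have hx : x ∈ side N y x := (mem_side N).2 ⟨[], by simp, rfl⟩
  have hy : y ∈ side N x y := (mem_side N).2 ⟨[], by simp, rfl⟩
  have hzx : z ≠ x := by
    intro h'
    rw [h'] at hz1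
    exact hz1 hx
  have hzy : z ≠ y := by
    intro h'
    rw [h'] at hz2
    exact hz2 hy
  by_cases rx : G.Adj z x
  · have : A N x y z ⊆ {x} := by
      intro v hv
      rw [mem_singleton]
      obtain ⟨hv, ha⟩ := (mem_A N).1 hv
      rcases (mem_X N).1 hv with ⟨l, hl, rfl⟩ | ⟨l, hl, rfl⟩
      · exact root_same N h12 h.symm hz1 hl rx ha
      · exact (root_opp N h12 h.symm hz2 hzx hl rx ha).elim
    exact (card_le_card this).trans (by simp)
  by_cases ry : G.Adj z y
  · have : A N x y z ⊆ {y} := by
      intro v hv
      rw [mem_singleton]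
      obtain ⟨hv, ha⟩ := (mem_A N).1 hv
      rcases (mem_X N).1 hv with ⟨l, hl, rfl⟩ | ⟨l, hl, rfl⟩
      · exact (root_opp N h12 h hz1 hzy hl ry ha).elim
      · exact root_same N h12 h hz2 hl ry ha
    exact (card_le_card this).trans (by simp)
  let B : V → V → Bool → Finset V := fun p w b => (A N x y z).filter fun v =>
    ∃ l : List Bool, l.length ≤ 4 ∧ v = cur N p w (b :: l)
  have hB : ∀ p w : V, G.Adj p w → z ∉ side N p w → ∀ b, (B p w b).card ≤ 1 := by
    intro p w hpw hzs b
    rw [card_le_one]
    intro v hv v' hv'
    obtain ⟨hv1, l, hl, rfl⟩ := mem_filter.1 hv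
    obtain ⟨hv1', l', hl', rfl⟩ := mem_filter.1 hv'
    exact branch N h12 hpw hzs b hl hl' ((mem_A N).1 hv1).2 ((mem_A N).1 hv1').2
  have hsub : A N x y z ⊆ (B y x false ∪ B y x true) ∪ (B x y false ∪ B x y true) := by
    intro v hv
    obtain ⟨hvX, ha⟩ := (mem_A N).1 hv
    rcases (mem_X N).1 hvX with ⟨l, hl, rfl⟩ | ⟨l, hl, rfl⟩
    · cases l with
      | nil => exact absurd ha rx
      | cons b l =>
        simp only [List.length_cons] at hl
        have hm : cur N y x (b :: l) ∈ B y x b := mem_filter.2 ⟨hv, l, by omega, rfl⟩
        cases b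
        · exact mem_union_left _ (mem_union_left _ hm)
        · exact mem_union_left _ (mem_union_right _ hm)
    · cases l with
      | nil => exact absurd ha ry
      | cons b l =>
        simp only [List.length_cons] at hl
        have hm : cur N x y (b :: l) ∈ B x y b := mem_filter.2 ⟨hv, l, by omega, rfl⟩
        cases b
        · exact mem_union_right _ (mem_union_left _ hm)
        · exact mem_union_right _ (mem_union_right _ hm)
  have h1 := hB y x h.symm hz1 false
  have h2 := hB y x h.symm hz1 true
  have h3 := hB x y h hz2 false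
  have h4 := hB x y h hz2 true
  have h5 := card_le_card hsub
  have h6 := card_union_le (B y x false ∪ B y x true) (B x y false ∪ B x y true)
  have h7 := card_union_le (B y x false) (B y x true)
  have h8 := card_union_le (B x y false) (B x y true)
  omega

/-- a neighbour of `z` on the same side -/
theorem nb_same {p w : V} (h : G.Adj p w) (m1 : List Bool) (c : Bool) (hm : m1.length ≤ 4)
    {l : List Bool} (hl : l.length ≤ 5) (ha : G.Adj (cur N p w (m1 ++ [c])) (cur N p w l)) :
    cur N p w l = cur N p w m1 ∨
      (m1.length ≤ 3 ∧ ∃ c' : Bool, cur N p w l = cur N p w ((m1 ++ [c]) ++ [c'])) := by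
  set m := m1 ++ [c] with hmd
  have hml : m.length = m1.length + 1 := by rw [hmd]; simp
  obtain ⟨P, p1, p2, p3, p4⟩ := wk N h12 m h (by omega)
  obtain ⟨Q, q1, q2, q3, q4⟩ := wk N h12 l h (by omega)
  by_cases hz : cur N p w m ∈ Q.support
  · right
    have e1 := usup h12 _ _ (q1.dropUntil hz) (Ord.edge_path ha) rfl (by
      have := Q.length_dropUntil_le_length hz
      simp only [SimpleGraph.Walk.length_cons, SimpleGraph.Walk.length_nil]
      omega)
    have e2 := usup h12 _ _ (q1.takeUntil hz) p1 rfl (by
      have := Q.length_takeUntil_le_length hz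
      omega)
    have e3 : (Q.takeUntil _ hz).length + (Q.dropUntil _ hz).length = Q.length := by
      rw [← SimpleGraph.Walk.length_append, SimpleGraph.Walk.take_spec]
    have e4 := congrArg List.length e1
    have e5 := congrArg List.length e2
    rw [SimpleGraph.Walk.length_support, SimpleGraph.Walk.length_support] at e4 e5
    simp only [SimpleGraph.Walk.length_cons, SimpleGraph.Walk.length_nil] at e4
    have hll : l.length = m.length + 1 := by omega
    refine ⟨by omega, ?_⟩
    rcases List.eq_nil_or_concat l with h0 | ⟨l1, c', h0⟩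
    · rw [h0] at hll; simp at hll
    · have h0' : l = l1 ++ [c'] := by rw [h0, List.concat_eq_append]
      have e6 : Q.support = (Q.takeUntil _ hz).support ++ (Q.dropUntil _ hz).support.tail := by
        conv_lhs => rw [← SimpleGraph.Walk.take_spec Q hz]
        rw [SimpleGraph.Walk.support_append]
      rw [e2, p2] at e6
      have e60 : sup N p w l = sup N p w l1 ++ [cur N p w (l1 ++ [c'])] := by
        rw [h0']
        exact sup_concat N l1 c' p w
      have e6 := e60.symm.trans (q2.symm.trans e6)
      have hlen : (sup N p w l1).length = (sup N p w m).length := by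
        rw [sup_length, sup_length]
        rw [h0'] at hll
        simp only [List.length_append, List.length_singleton] at hll
        omega
      have e7 := (List.append_inj e6 hlen).1
      have e8 := congrArg List.getLast? e7
      rw [sup_last, sup_last] at e8
      have e9 : l1 = m := cur_inj N h12 l1 m h (by
        rw [h0'] at hll; simp at hll; omega) (by omega) (by
        rw [h0'] at hll; simp at hll; omega) (Option.some.inj e8)
      exact ⟨c', by rw [h0', e9]⟩
  · left
    have e := usup h12 _ _ (q1.concat hz ha.symm) p1 rfl (by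
      rw [SimpleGraph.Walk.length_concat]
      omega)
    rw [SimpleGraph.Walk.support_concat, q2, p2, hmd, sup_concat] at e
    have e1 := (List.append_inj' e rfl).1
    have e2 := congrArg List.getLast? e1
    rw [sup_last, sup_last] at e2
    exact Option.some.inj e2

/-- a neighbour of `z` on the opposite side -/
theorem nb_opp {p w : V} (h : G.Adj p w) (m : List Bool) (hm0 : m ≠ []) (hm : m.length ≤ 5)
    {l : List Bool} (hl : l.length ≤ 5) (ha : G.Adj (cur N p w m) (cur N w p l)) :
    m.length = 5 ∧ l.length = 5 := by
  by_contra hcon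
  have hzs : cur N p w m ∉ side N w p := fun h' =>
    side_disj N h12 h ((mem_side N).2 ⟨m, hm, rfl⟩) h'
  obtain ⟨P, p1, p2, p3, p4⟩ := wk N h12 m h (by omega)
  obtain ⟨Q, q1, q2, q3, q4⟩ := wk N h12 l h.symm (by omega)
  have hzQ : cur N p w m ∉ Q.support := by rw [q2]; exact not_sup' N hzs l hl
  have hzw : cur N p w m ≠ w := by
    intro he
    have : m = [] := cur_inj N h12 m [] h (by omega) (by simp) (by simp; omega) he
    exact hm0 this
  have hw1 : w ∉ (Q.concat ha.symm).support := by
    rw [SimpleGraph.Walk.support_concat, List.mem_append, q2]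
    rintro (h1 | h1)
    · exact q4 h1
    · exact hzw (List.mem_singleton.1 h1).symm
  have hR := (SimpleGraph.Walk.cons_isPath_iff h.symm (Q.concat ha.symm)).2
    ⟨q1.concat hzQ ha.symm, hw1⟩
  have e := usup h12 _ _ p1 hR rfl (by
    rw [SimpleGraph.Walk.length_cons, SimpleGraph.Walk.length_concat]
    omega)
  apply p4
  rw [← p2, e, SimpleGraph.Walk.support_cons]
  refine List.mem_cons_of_mem _ ?_
  exact (Q.concat ha.symm).start_mem_support

theorem card_A_in_aux {p w : V} (h : G.Adj p w) (m : List Bool) (hm : m.length ≤ 5) :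
    (A N w p (cur N p w m)).card ≤ 3 := by
  classical
  rcases List.eq_nil_or_concat m with h0 | ⟨m1, c, h0⟩
  · -- a root
    subst h0
    change (A N w p w).card ≤ 3
    have hsub : A N w p w ⊆ {p, N.f p w false, N.f p w true} := by
      intro v hv
      obtain ⟨hv, ha⟩ := (mem_A N).1 hv
      rw [mem_insert, mem_insert, mem_singleton]
      rcases (mem_X N).1 hv with ⟨l, hl, rfl⟩ | ⟨l, hl, rfl⟩
      · right
        obtain ⟨P, p1, p2, p3, p4⟩ := wk N h12 l h (by omega)
        have e := usup h12 _ _ (Ord.edge_path ha) p1 rfl (by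
          simp only [SimpleGraph.Walk.length_cons, SimpleGraph.Walk.length_nil]
          omega)
        have e1 := congrArg List.length e
        rw [SimpleGraph.Walk.length_support, SimpleGraph.Walk.length_support] at e1
        simp only [SimpleGraph.Walk.length_cons, SimpleGraph.Walk.length_nil] at e1
        obtain ⟨b, rfl⟩ := List.length_eq_one_iff.1 (show l.length = 1 by omega)
        cases b
        · exact Or.inl rfl
        · exact Or.inr rfl
      · left
        obtain ⟨Q, q1, q2, q3, q4⟩ := wk N h12 l h.symm (by omega)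
        have hQ : (SimpleGraph.Walk.cons h.symm Q).IsPath := by
          rw [SimpleGraph.Walk.cons_isPath_iff, q2]
          exact ⟨q1, q4⟩
        have e := usup h12 _ _ (Ord.edge_path ha) hQ rfl (by
          simp only [SimpleGraph.Walk.length_cons, SimpleGraph.Walk.length_nil]
          omega)
        have e1 := congrArg List.length e
        rw [SimpleGraph.Walk.length_support, SimpleGraph.Walk.length_support] at e1
        simp only [SimpleGraph.Walk.length_cons, SimpleGraph.Walk.length_nil] at e1
        have h0 : l = [] := List.length_eq_zero_iff.1 (by omega)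
        rw [h0]
        rfl
    exact (card_le_card hsub).trans card_le_three
  · have h0' : m = m1 ++ [c] := by rw [h0, List.concat_eq_append]
    have hml : m.length = m1.length + 1 := by rw [h0']; simp
    have hm0 : m ≠ [] := by rw [h0']; simp
    by_cases h5 : m1.length ≤ 3
    · have hsub : A N w p (cur N p w m) ⊆
          {cur N p w m1, cur N p w (m ++ [false]), cur N p w (m ++ [true])} := by
        intro v hv
        obtain ⟨hv, ha⟩ := (mem_A N).1 hv
        rw [mem_insert, mem_insert, mem_singleton]
        rcases (mem_X N).1 hv with ⟨l, hl, rfl⟩ | ⟨l, hl, rfl⟩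
        · rw [h0'] at ha
          rcases nb_same N h12 h m1 c (by omega) hl ha with h6 | ⟨_, c', h6⟩
          · exact Or.inl h6
          · right
            rw [h0', h6]
            cases c'
            · exact Or.inl rfl
            · exact Or.inr rfl
        · have := (nb_opp N h12 h m hm0 hm hl ha).1
          omega
      exact (card_le_card hsub).trans card_le_three
    · have hzs : cur N p w m ∉ side N w p := fun h' =>
        side_disj N h12 h ((mem_side N).2 ⟨m, hm, rfl⟩) h'
      let B : Bool → Finset V := fun b => (A N w p (cur N p w m)).filter fun v =>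
        ∃ l : List Bool, l.length ≤ 4 ∧ v = cur N w p (b :: l)
      have hB : ∀ b, (B b).card ≤ 1 := by
        intro b
        rw [card_le_one]
        intro v hv v' hv'
        obtain ⟨hv1, l, hl, rfl⟩ := mem_filter.1 hv
        obtain ⟨hv1', l', hl', rfl⟩ := mem_filter.1 hv'
        exact branch N h12 h.symm hzs b hl hl' ((mem_A N).1 hv1).2 ((mem_A N).1 hv1').2
      have hsub : A N w p (cur N p w m) ⊆ {cur N p w m1} ∪ (B false ∪ B true) := by
        intro v hv
        obtain ⟨hvX, ha⟩ := (mem_A N).1 hv
        rcases (mem_X N).1 hvX with ⟨l, hl, rfl⟩ | ⟨l, hl, rfl⟩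
        · rw [h0'] at ha
          rcases nb_same N h12 h m1 c (by omega) hl ha with h6 | ⟨h7, _⟩
          · exact mem_union_left _ (mem_singleton.2 h6)
          · exact absurd h7 h5
        · have h6 := (nb_opp N h12 h m hm0 hm hl ha).2
          cases l with
          | nil => simp at h6
          | cons b l =>
            simp only [List.length_cons] at h6
            have hm : cur N w p (b :: l) ∈ B b := mem_filter.2 ⟨hv, l, by omega, rfl⟩
            cases b
            · exact mem_union_right _ (mem_union_left _ hm)
            · exact mem_union_right _ (mem_union_right _ hm)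
      have h1 := hB false
      have h2 := hB true
      have h3 := card_le_card hsub
      have h4 := card_union_le {cur N p w m1} (B false ∪ B true)
      have h6 := card_union_le (B false) (B true)
      rw [card_singleton] at h4
      omega

/-- **A vertex of the tree has at most three neighbours in the tree.** -/
theorem card_A_in {x y z : V} (h : G.Adj x y) (hz : z ∈ X N x y) : (A N x y z).card ≤ 3 := by
  rcases (mem_X N).1 hz with ⟨l, hl, rfl⟩ | ⟨l, hl, rfl⟩
  · exact card_A_in_aux N h12 h.symm l hl
  · have h1 := card_A_in_aux N h12 h l hl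
    have h2 : A N x y (cur N x y l) = A N y x (cur N x y l) := by
      ext v
      rw [mem_A, mem_A, X_symm]
    rw [h2]
    exact h1

end Pool.Agent.X65.FT
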