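import Pool.Agent.Y358.IN.Ind2

/-!
# A binary tree around an edge of a graph of girth at least twelve

`G` has girth at least twelve and all degrees are at least three.  Choose two continuations for each
directed edge; from the two ends of an edge `x y` one obtains a tree with `126` vertices.  Every vertex
outside this tree has at most four neighbours in it, and every vertex of the tree has at most three
neighbours in it.
-/

set_option autoImplicit false
set_option linter.unusedSectionVars false

namespace Pool.Agent.X65.FT

open Finset Pool.Agent.TH676.Z Pool.Agent.Y335.FL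

variable {V : Type} [Fintype V] [DecidableEq V] {G : SimpleGraph V}

/-- two continuations of each directed edge -/
structure Nx (G : SimpleGraph V) where
  f : V → V → Bool → V
  adj : ∀ {p w : V} (b : Bool), G.Adj p w → G.Adj w (f p w b)
  ne : ∀ {p w : V} (b : Bool), G.Adj p w → f p w b ≠ p
  inj : ∀ {p w : V}, G.Adj p w → f p w false ≠ f p w true

theorem exists_nx
    (h3 : ∀ x y, G.Adj x y → ∃ a b c, G.Adj x a ∧ G.Adj x b ∧ G.Adj x c ∧ a ≠ b ∧ a ≠ c ∧ b ≠ c) :
    Nonempty (Nx G) := by
  classical
  have key : ∀ p w : V, ∃ g : Bool → V, G.Adj p w →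
      (∀ b, G.Adj w (g b)) ∧ (∀ b, g b ≠ p) ∧ g false ≠ g true := by
    intro p w
    by_cases h : G.Adj p w
    · obtain ⟨a, b, c, ha, hb, hc, hab, hac, hbc⟩ := h3 w p h.symm
      by_cases e1 : a = p
      · refine ⟨fun t => if t then b else c, fun _ => ⟨?_, ?_, ?_⟩⟩
        · intro t; cases t <;> simp [hb, hc]
        · intro t
          cases t
          · simpa using fun h' : c = p => hac (e1.trans h'.symm)
          · simpa using fun h' : b = p => hab (e1.trans h'.symm)
        · simpa using hbc.symm
      · by_cases e2 : b = p
        · refine ⟨fun t => if t then a else c, fun _ => ⟨?_, ?_, ?_⟩⟩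
          · intro t; cases t <;> simp [ha, hc]
          · intro t
            cases t
            · simpa using fun h' : c = p => hbc (e2.trans h'.symm)
            · simpa using e1
          · simpa using hac.symm
        · refine ⟨fun t => if t then a else b, fun _ => ⟨?_, ?_, ?_⟩⟩
          · intro t; cases t <;> simp [ha, hb]
          · intro t
            cases t
            · simpa using e2
            · simpa using e1
          · simpa using hab.symm
    · exact ⟨fun _ => p, fun h' => absurd h' h⟩
  choose g hg using key
  exact ⟨⟨g, fun b h => (hg _ _ h).1 b, fun b h => (hg _ _ h).2.1 b, fun h => (hg _ _ h).2.2⟩⟩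

variable (N : Nx G)

theorem Nx.eq_of {p w : V} (h : G.Adj p w) {b c : Bool} (hbc : N.f p w b = N.f p w c) : b = c := by
  cases b <;> cases c
  · rfl
  · exact absurd hbc (N.inj h)
  · exact absurd hbc.symm (N.inj h)
  · rfl

/-- the end of the walk with the directions `l` -/
def cur : V → V → List Bool → V
  | _, w, [] => w
  | p, w, b :: l => cur w (N.f p w b) l

/-- the vertices on the walk with the directions `l` -/
def sup : V → V → List Bool → List V
  | _, w, [] => [w]
  | p, w, b :: l => w :: sup w (N.f p w b) l

theorem sup_concat : ∀ (l : List Bool) (c : Bool) (p w : V),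
    sup N p w (l ++ [c]) = sup N p w l ++ [cur N p w (l ++ [c])]
  | [], c, p, w => rfl
  | b :: l, c, p, w => by
    have e := sup_concat l c w (N.f p w b)
    change w :: sup N w (N.f p w b) (l ++ [c]) =
      w :: (sup N w (N.f p w b) l ++ [cur N w (N.f p w b) (l ++ [c])])
    rw [e]

theorem sup_head : ∀ (l : List Bool) (p w : V), (sup N p w l).head? = some w
  | [], _, _ => rfl
  | _ :: _, _, _ => rfl

theorem sup_last : ∀ (l : List Bool) (p w : V), (sup N p w l).getLast? = some (cur N p w l)
  | [], _, _ => rfl
  | b :: l, p, w => by
    have e := sup_last l w (N.f p w b)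
    change (w :: sup N w (N.f p w b) l).getLast? = some (cur N w (N.f p w b) l)
    rw [List.getLast?_cons, e]
    rfl

theorem sup_length : ∀ (l : List Bool) (p w : V), (sup N p w l).length = l.length + 1
  | [], _, _ => rfl
  | b :: l, p, w => by
    change (w :: sup N w (N.f p w b) l).length = (b :: l).length + 1
    rw [List.length_cons, sup_length l, List.length_cons]

theorem mem_sup : ∀ (l : List Bool) (p w z : V), z ∈ sup N p w l →
    ∃ l1 : List Bool, l1.length ≤ l.length ∧ z = cur N p w l1
  | [], p, w, z, hz => by
    have h : z = w := by simpa [sup] using hz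
    exact ⟨[], le_refl _, h⟩
  | b :: l, p, w, z, hz => by
    have hz' : z = w ∨ z ∈ sup N w (N.f p w b) l := List.mem_cons.1 hz
    rcases hz' with hz' | hz'
    · exact ⟨[], Nat.zero_le _, hz'⟩
    · obtain ⟨l1, h1, h2⟩ := mem_sup l w (N.f p w b) z hz'
      exact ⟨b :: l1, by simpa using h1, h2⟩

variable (h12 : ∀ (w : V) (c : G.Walk w w), c.IsCycle → 12 ≤ c.length)
include h12

theorem usup {u a b : V} (P : G.Walk u a) (Q : G.Walk u b) (hP : P.IsPath) (hQ : Q.IsPath)
    (hab : a = b) (hl : P.length + Q.length ≤ 11) : P.support = Q.support := by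
  subst hab
  rw [Ord.uniq h12 hP hQ hl]

theorem wk : ∀ (l : List Bool) {p w : V} (_ : G.Adj p w), l.length ≤ 9 →
    ∃ P : G.Walk w (cur N p w l), P.IsPath ∧ P.support = sup N p w l ∧ P.length = l.length ∧
      p ∉ sup N p w l
  | [], p, w, h, _ => by
    refine ⟨SimpleGraph.Walk.nil, SimpleGraph.Walk.IsPath.nil, rfl, rfl, ?_⟩
    have : p ≠ w := h.ne
    simpa [sup] using this
  | b :: l, p, w, h, hl => by
    rw [List.length_cons] at hl
    obtain ⟨P, h1, h2, h3, h4⟩ := wk l (N.adj b h) (by omega)
    have hw : w ∉ P.support := by rw [h2]; exact h4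
    refine ⟨SimpleGraph.Walk.cons (N.adj b h) P, (SimpleGraph.Walk.cons_isPath_iff _ _).2 ⟨h1, hw⟩,
      ?_, ?_, ?_⟩
    · exact congrArg (List.cons w) h2
    · exact congrArg (fun n => n + 1) h3
    · intro hp
      have hp' : p = w ∨ p ∈ sup N w (N.f p w b) l := List.mem_cons.1 hp
      rcases hp' with hp' | hp'
      · exact h.ne hp'
      · rw [← h2] at hp'
        have hu : ((SimpleGraph.Walk.cons (N.adj b h).symm
            (SimpleGraph.Walk.cons h.symm SimpleGraph.Walk.nil) :
            G.Walk (N.f p w b) p)).IsPath := by
          rw [SimpleGraph.Walk.cons_isPath_iff]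
          refine ⟨Ord.edge_path h.symm, ?_⟩
          simp only [SimpleGraph.Walk.support_cons, SimpleGraph.Walk.support_nil,
            List.mem_cons, List.not_mem_nil, or_false, not_or]
          exact ⟨(N.adj b h).ne.symm, N.ne b h⟩
        have e := usup h12 _ _ (h1.takeUntil hp') hu rfl (by
          have h5 := P.length_takeUntil_le_length hp'
          rw [h3] at h5
          simp only [SimpleGraph.Walk.length_cons, SimpleGraph.Walk.length_nil]
          omega)
        have h6 : w ∈ (P.takeUntil p hp').support := by
          rw [e]
          simp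
        exact hw (P.support_takeUntil_subset_support hp' h6)

theorem cur_inj : ∀ (l l' : List Bool) {p w : V} (_ : G.Adj p w), l.length ≤ 9 → l'.length ≤ 9 →
    l.length + l'.length ≤ 11 → cur N p w l = cur N p w l' → l = l' := by
  intro l l' p w h h1 h2 h3 he
  have key : ∀ (l l' : List Bool) (p w : V), G.Adj p w → sup N p w l = sup N p w l' → l = l' := by
    intro l
    induction l with
    | nil =>
      intro l' p w _ e
      have := congrArg List.length e
      rw [sup_length, sup_length] at this
      have h : l'.length = 0 := by
        simp only [List.length_nil] at this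
        omega
      exact (List.length_eq_zero_iff.1 h).symm
    | cons b l ih =>
      intro l' p w h e
      cases l' with
      | nil =>
        have := congrArg List.length e
        rw [sup_length, sup_length] at this
        simp at this
      | cons b' l' =>
        have e1 : sup N w (N.f p w b) l = sup N w (N.f p w b') l' := List.tail_eq_of_cons_eq e
        have e2 := congrArg List.head? e1
        rw [sup_head, sup_head] at e2
        have e3 := N.eq_of h (Option.some.inj e2)
        subst e3
        rw [ih l' _ _ (N.adj b h) e1]
  obtain ⟨P, p1, p2, p3, _⟩ := wk N h12 l h h1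
  obtain ⟨Q, q1, q2, q3, _⟩ := wk N h12 l' h h2
  have e := usup h12 P Q p1 q1 he (by omega)
  rw [p2, q2] at e
  exact key l l' p w h e

/-- two walks from `w` that are extended to the same vertex `z` -/
theorem same_end {l l' : List Bool} {p w z : V} (h : G.Adj p w)
    (hl : l.length + l'.length ≤ 9) (ha : G.Adj (cur N p w l) z) (ha' : G.Adj (cur N p w l') z)
    (hz : z ∉ sup N p w l) (hz' : z ∉ sup N p w l') : cur N p w l = cur N p w l' := by
  obtain ⟨P, p1, p2, p3, _⟩ := wk N h12 l h (by omega)
  obtain ⟨Q, q1, q2, q3, _⟩ := wk N h12 l' h (by omega)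
  rw [← p2] at hz
  rw [← q2] at hz'
  have e := usup h12 _ _ (p1.concat hz ha) (q1.concat hz' ha') rfl (by
    rw [SimpleGraph.Walk.length_concat, SimpleGraph.Walk.length_concat]
    omega)
  rw [SimpleGraph.Walk.support_concat, SimpleGraph.Walk.support_concat] at e
  have e1 : sup N p w l = sup N p w l' := by
    rw [← p2, ← q2]
    exact List.append_inj_left' e rfl
  have e2 := congrArg List.getLast? e1
  rw [sup_last, sup_last] at e2
  exact Option.some.inj e2

end Pool.Agent.X65.FT
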